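import Pool.Agent.H14.P4.Def

/-!
# P4: the pieces of the cell side, statements
-/

set_option autoImplicit false

namespace Pool.P4

open Finset Real MvPolynomial
open Pool.Agent.H49.Ent Pool.Agent.H32.Dense Pool.STK Pool.STAT Pool.MIC.Frm Pool.MIC7 Pool.FRM
open Pool.GSD
open Pool.BFL (Pb)

/-! ### Geometry -/

/-- **(PTH)** The paths are natural over the closed labels, off a small event. -/
def PthStmt : Prop :=
  ∀ (n K M : ℕ) (lam gam : ℕ → ℝ) (C₁ e : ℝ), 1 ≤ C₁ → 0 < e → ∃ (κ : ℝ) (z₀ : ℕ), 0 < κ ∧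
    ∀ (J a₀ w₀ z : ℕ) (D : NDat2) (q : D.Ω → ℝ), z₀ ≤ z →
      D.Ok2 n K J a₀ w₀ z M lam gam κ C₁ q → D.TmU J w₀ z κ q →
      Pb q (fun ω => ¬ PthC D n w₀ z M 1 ω) ≤ e

/-- **(CFR)** Closed frames. -/
def CfrStmt : Prop :=
  ∀ (n K : ℕ) (lam gam : ℕ → ℝ) (C₁ : ℝ), 1 ≤ n → 1 ≤ C₁ → ∃ (K' : ℕ) (C : ℝ), K ≤ K' ∧ 0 ≤ C ∧
    ∀ (M : ℕ) (e : ℝ), 2 ≤ M → 0 < e → ∃ (κ : ℝ) (z₀ : ℕ), 0 < κ ∧
    ∀ (J a₀ w₀ z : ℕ) (D : NDat2) (q : D.Ω → ℝ), z₀ ≤ z →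
      D.Ok2 n K J a₀ w₀ z M lam gam κ C₁ q → D.TmU J w₀ z κ q →
      Pb q (fun ω => ¬ FraC D n K' M z C ω) ≤ e

/-- The deterministic properties of a good sample. -/
structure GoodS (D : NDat2) (n K' w₀ z M : ℕ) (C : ℝ) (ω : D.Ω) : Prop where
  fc : FraC D n K' M z C ω
  fv : Fra D n K' M z C ω
  pc : PthC D n w₀ z M 1 ω

/-- `P` is a closed frame at the radii `≤ i` and the windows `j`, `j - r`, seen from `ω`. -/
structure FrP (D : NDat2) (n K' z i j r : ℕ) (C : ℝ) (P : ℕ → PN) (ω : D.Ω) : Prop where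
  tri : TriN P
  deg : ∀ l, (P l).totalDegree ≤ K'
  near : ∀ i' ≤ i, ∀ l ≤ n,
    nrm (D.g i' j) (1 / 2) (chr P (D.Φ i' j ω l - P l)) ≤ exp (C * z) / 2 ^ D.g i' j l ∧
    nrm (D.g (i' - 1) (j - r)) (1 / 2) (chr P (D.Φ (i' - 1) (j - r) ω l - P l)) ≤
      exp (C * z) / 2 ^ D.g (i' - 1) (j - r) l

/-- The arithmetic of a place. -/
structure Plc (n : ℕ) (gam : ℕ → ℝ) (y r r' r'' a M i j : ℕ) : Prop where
  stp : Stp n gam y r r' r'' a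
  y1 : 1 ≤ y
  a1 : a ≤ i
  i1 : r'' ≤ i
  i2 : i + r'' < M
  j1 : r ≤ j
  j2 : j + r < M

open Classical in
/-- **(LIN)** The lines over a closed frame, deterministic. -/
def LinStmt : Prop :=
  ∀ (n K K' : ℕ) (lam gam : ℕ → ℝ) (C₁ C : ℝ), 1 ≤ n → 1 ≤ C₁ → 0 ≤ C →
    (∀ l, 1 ≤ l → l ≤ n → lam l = 1) → (∀ l, 0 ≤ gam l) → ∃ C' : ℝ, 1 ≤ C' ∧
    ∀ (y r r' r'' a M : ℕ), ∃ z₀ : ℕ, ∀ (J a₀ w₀ z i j : ℕ) (D : NDat2) (q : D.Ω → ℝ) (κ : ℝ),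
      z₀ ≤ z → Plc n gam y r r' r'' a M i j → D.Ok2 n K J a₀ w₀ z M lam gam κ C₁ q →
      ∀ (P : ℕ → PN) (ω : D.Ω), 0 < q ω → GoodS D n K' w₀ z M C ω → FrP D n K' z i j r C P ω →
      (∀ l, 1 ≤ l → l ≤ n → |ze D i j r (fun _ => P) ω l| ≤ exp (C' * z)) ∧
      (∀ w, w₀ + j * z ≤ w → w ≤ w₀ + (j + 1) * z →
        (∀ l, 1 ≤ l → l ≤ n → |z0 D J w i j r (fun _ => P) ω l| ≤ exp (C' * z) ∧
          |be D J w i j r (fun _ => P) ω l| ≤ exp (C' * z)) ∧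
        (∀ l, sl gam n l → |ze D i j r (fun _ => P) ω l - z0 D J w i j r (fun _ => P) ω l| ≤
          exp (C' * z) / 2 ^ (y * z)) ∧
        (∀ l, gr gam n l → |ze D i j r (fun _ => P) ω l - (z0 D J w i j r (fun _ => P) ω l +
          rt D J w ω * be D J w i j r (fun _ => P) ω l)| ≤ exp (C' * z) / 2 ^ (y * z)) ∧
        ∀ ω', 0 < q ω' → GoodS D n K' w₀ z M C ω' → bb D i j r ω = bb D i j r ω' →
          D.T ω / 2 ^ (J - w) = D.T ω' / 2 ^ (J - w) →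
          (D.c (i + r') (j - r) ω = D.c (i + r') (j - r) ω' →
            (∀ l, sl gam n l → |z0 D J w i j r (fun _ => P) ω l -
              z0 D J w i j r (fun _ => P) ω' l| ≤ exp (C' * z) / 2 ^ (y * z)) ∧
            ∀ l, gr gam n l → |be D J w i j r (fun _ => P) ω l -
              be D J w i j r (fun _ => P) ω' l| ≤ exp (C' * z) / 2 ^ (y * z)) ∧
          (D.c (i + r'') (j - r) ω = D.c (i + r'') (j - r) ω' →
            ∀ l, 1 ≤ l → l ≤ n →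
              |z0 D J w i j r (fun _ => P) ω l - z0 D J w i j r (fun _ => P) ω' l| ≤
                exp (C' * z) / 2 ^ (y * z) ∧
              |be D J w i j r (fun _ => P) ω l - be D J w i j r (fun _ => P) ω' l| ≤
                exp (C' * z) / 2 ^ (y * z)))

open Classical in
/-- **(OWN)** The own sheets over a closed frame, deterministic. -/
def OwnStmt : Prop :=
  ∀ (n K K' : ℕ) (lam gam : ℕ → ℝ) (C₁ C : ℝ), 1 ≤ n → 1 ≤ C₁ → 0 ≤ C →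
    (∀ l, 1 ≤ l → l ≤ n → lam l = 1) → (∀ l, 0 ≤ gam l) → ∃ C' : ℝ, 1 ≤ C' ∧
    ∀ (y r r' r'' a M : ℕ), ∃ z₀ : ℕ, ∀ (J a₀ w₀ z i j : ℕ) (D : NDat2) (q : D.Ω → ℝ) (κ : ℝ),
      z₀ ≤ z → Plc n gam y r r' r'' a M i j → D.Ok2 n K J a₀ w₀ z M lam gam κ C₁ q →
      ∀ (P : D.Γ × D.Γ → ℕ → PN) (E : D.Ω → Prop),
      (∀ ω, E ω → 0 < q ω ∧ GoodS D n K' w₀ z M C ω ∧ FrP D n K' z i j r C (P (bb D i j r ω)) ω) →
      ∃ S : D.Ω → ℕ → ℕ → ℝ, (∀ ω u k, |S ω u k| ≤ exp (C' * z)) ∧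
      (∀ ω u k, u ≤ k → S ω u k = 0) ∧
      (∀ ω, E ω → ∀ Bx : ℝ, 1 ≤ Bx → ∀ b : ℕ → ℝ, b 0 = D.X ω 0 →
        (∀ k, sl gam n k → |nat (D.g i j) (P (bb D i j r ω)) b k| ≤ exp (Bx * z)) →
        (∀ u, gr gam n u → b u = eval b (D.Ψ (i - r') (j + r) ω u)) →
        ∀ u, gr gam n u → |nat (D.g i j) (P (bb D i j r ω)) b u - (nn D n i j r gam P S ω u +
          ∑ k ∈ (range n).filter (sl gam n),
            S ω u k * nat (D.g i j) (P (bb D i j r ω)) b k)| ≤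
              exp (C' * Bx * z) / 2 ^ (y * z)) ∧
      ∀ ω ω', E ω → E ω' → bb D i j r ω = bb D i j r ω' → D.T ω = D.T ω' →
        (D.s (i - r') (j + r) ω = D.s (i - r') (j + r) ω' → ∀ u, gr gam n u →
          |nn D n i j r gam P S ω u - nn D n i j r gam P S ω' u| ≤
            exp (C' * z) / 2 ^ (y * z) ∧
          ∀ k, sl gam n k → |S ω u k - S ω' u k| ≤ exp (C' * z) / 2 ^ (y * z)) ∧
        (D.s (i - r'') (j + r) ω = D.s (i - r'') (j + r) ω' → ∀ u, gr gam n u →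
          ∀ k, sl gam n k → |S ω u k - S ω' u k| ≤ exp (C' * z) / 2 ^ (y * z))

/-- **(DEP)** Deeper contexts, deterministic. -/
def DepStmt : Prop :=
  ∀ (n K K' : ℕ) (lam gam : ℕ → ℝ) (C₁ C : ℝ), 1 ≤ n → 1 ≤ C₁ → 0 ≤ C →
    (∀ l, 1 ≤ l → l ≤ n → lam l = 1) → (∀ l, 0 ≤ gam l) → ∃ C' : ℝ, 1 ≤ C' ∧
    ∀ (y r r' r'' a M : ℕ), ∃ z₀ : ℕ, ∀ (J a₀ w₀ z i j : ℕ) (D : NDat2) (q : D.Ω → ℝ) (κ : ℝ),
      z₀ ≤ z → Plc n gam y r r' r'' a M i j → D.Ok2 n K J a₀ w₀ z M lam gam κ C₁ q →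
      ∀ (P : D.Γ × D.Γ → ℕ → PN) (E : D.Ω → Prop),
      (∀ ω, E ω → 0 < q ω ∧ GoodS D n K' w₀ z M C ω ∧ FrP D n K' z i j r C (P (bb D i j r ω)) ω) →
      Dep D n J w₀ z M i j r C' q E P

/-- **(GEO)** -/
def GeoStmt : Prop :=
  ∀ (n K : ℕ) (lam gam : ℕ → ℝ) (C₁ : ℝ), 1 ≤ n → 1 ≤ C₁ → (∀ l, 1 ≤ l → l ≤ n → lam l = 1) →
    (∀ l, 0 ≤ gam l) → ∃ (K' : ℕ) (C : ℝ), 1 ≤ C ∧
    ∀ (y r r' r'' a M : ℕ) (e : ℝ), 0 < e → ∃ (κ : ℝ) (z₀ : ℕ), 0 < κ ∧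
    ∀ (J a₀ w₀ z i j : ℕ) (D : NDat2) (q : D.Ω → ℝ), z₀ ≤ z → Plc n gam y r r' r'' a M i j →
      D.Ok2 n K J a₀ w₀ z M lam gam κ C₁ q → D.TmU J w₀ z κ q →
      ∃ (E : D.Ω → Prop) (P : D.Γ × D.Γ → ℕ → PN) (S : D.Ω → ℕ → ℕ → ℝ),
        Pb q (fun ω => ¬ E ω) ≤ e ∧
        (∀ ω, E ω → 0 < q ω ∧ GoodS D n K' w₀ z M C ω ∧
          FrP D n K' z i j r C (P (bb D i j r ω)) ω) ∧
        Geo D n K' J w₀ z i j r r' r'' gam C (exp (C * z) / 2 ^ (y * z)) q E P S ∧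
        Dep D n J w₀ z M i j r C q E P

/-! ### Entropies: everything which is used, and the errors -/

/-- The hypotheses of the entropic pieces. -/
structure Hyp (D : NDat2) (n K K' J a₀ w₀ z M w i j r r' r'' y X : ℕ) (lam gam : ℕ → ℝ)
    (κ C₁ C : ℝ) (q : D.Ω → ℝ) (E : D.Ω → Prop) (P : D.Γ × D.Γ → ℕ → PN)
    (S : D.Ω → ℕ → ℕ → ℝ) {c k : ℕ} (ys : Fin k → ℕ) (gs : Fin c → ℕ) : Prop where
  ok : D.Ok2 n K J a₀ w₀ z M lam gam κ C₁ q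
  dma : D.DMA z M κ q
  llc : LLC D n z M C q
  tmu : D.TmU J w₀ z κ q
  n1 : 1 ≤ n
  C1 : 1 ≤ C₁
  Cg : 1 ≤ C
  κ0 : 0 ≤ κ
  z1 : 1 ≤ z
  lam1 : ∀ l, 1 ≤ l → l ≤ n → lam l = 1
  gam0 : ∀ l, 0 ≤ gam l
  i0 : 1 ≤ i
  i1 : r'' ≤ i
  i2 : i + r'' < M
  j1 : r ≤ j
  j2 : j + r < M
  r1 : r' ≤ r''
  w1 : w₀ + j * z ≤ w
  w2 : w ≤ w₀ + (j + 1) * z
  pE : 1 / 2 ≤ Pb q E
  geo : Geo D n K' J w₀ z i j r r' r'' gam C (exp (C * z) / 2 ^ (y * z)) q E P S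
  gd : ∀ ω, E ω → 0 < q ω ∧ GoodS D n K' w₀ z M C ω ∧ FrP D n K' z i j r C (P (bb D i j r ω)) ω
  dep : Dep D n J w₀ z M i j r C q E P
  yX : exp (C * z) * 2 ^ X ≤ 2 ^ (y * z)
  Xz : ∃ x, X = x * z ∧ i + x + r'' < M
  Xr : ∀ x, X = x * z → j + x * r < M
  ys_sl : ∀ a, sl gam n (ys a)
  ys_in : Function.Injective ys
  ys_on : ∀ l, sl gam n l → ∃ a, ys a = l
  gs_gr : ∀ u, gr gam n (gs u)
  gs_in : StrictMono gs
  gs_on : ∀ l, gr gam n l → ∃ u, gs u = l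

/-- The error. -/
noncomputable def err (A κ : ℝ) (z X : ℕ) (b : ℝ) : ℝ := A * ((1 + κ) * z + X * b)

/-- The common form of the entropic pieces: the constant `A` depends on `n, K, K', C₁, C, c, k`. -/
def EntOf (F : ∀ (D : NDat2) (n J a₀ w₀ z M w i j r X : ℕ) (gam : ℕ → ℝ) (q : D.Ω → ℝ) (C : ℝ)
    (P : D.Γ × D.Γ → ℕ → PN) (S : D.Ω → ℕ → ℕ → ℝ) (c k : ℕ) (ys : Fin k → ℕ) (gs : Fin c → ℕ)
    (d : ℝ), Prop) : Prop :=
  ∀ (n K K' c k : ℕ) (C₁ C : ℝ), ∃ A : ℝ, 0 ≤ A ∧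
    ∀ (D : NDat2) (J a₀ w₀ z M w i j r r' r'' y X : ℕ) (lam gam : ℕ → ℝ) (κ : ℝ) (q : D.Ω → ℝ)
      (E : D.Ω → Prop) (P : D.Γ × D.Γ → ℕ → PN) (S : D.Ω → ℕ → ℕ → ℝ) (ys : Fin k → ℕ)
      (gs : Fin c → ℕ),
      Hyp D n K K' J a₀ w₀ z M w i j r r' r'' y X lam gam κ C₁ C q E P S ys gs →
      F D n J a₀ w₀ z M w i j r X gam q C P S c k ys gs
        (err A κ z X (Pb q (fun ω => ¬ E ω)))

/-- **(H0)** The abstract time is almost independent of the line. -/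
def H0Stmt : Prop := EntOf fun D _ J _ _ z _ w i j r X _ q C P S c k ys gs d =>
  CH q (qh (c := c) (k := k) D J w z i j r X C P S ys gs q).th
      (qh (c := c) (k := k) D J w z i j r X C P S ys gs q).b ≤
    CH q (qh (c := c) (k := k) D J w z i j r X C P S ys gs q).th
      (qh (c := c) (k := k) D J w z i j r X C P S ys gs q).line + d

/-- **(H2)** The height over the own sheet is almost independent of the data of the line. -/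
def H2Stmt : Prop := EntOf fun D _ J _ _ z _ w i j r X _ q C P S c k ys gs d =>
  let H := qh (c := c) (k := k) D J w z i j r X C P S ys gs q
  CH q H.hgt (fun ω => (H.th ω, H.b ω)) ≤
    CH q H.hgt (fun ω => (H.v ω, (H.th ω, H.b ω))) + d

/-- **(YF)** The slow coordinates are full. -/
def YFStmt : Prop := EntOf fun D _ J _ _ z _ w i j r X _ q C P _ _ k ys _ d =>
  k * X * Real.log 2 ≤ CH q (yv (k := k) D J w z i j r X C P ys) (cb D J w i j r) + d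

/-- **(TF)** The time is full. -/
def TFStmt : Prop := EntOf fun D _ J _ _ _ _ w i j r X _ q _ _ _ _ _ _ _ d =>
  X * Real.log 2 ≤ CH q (fun ω => tq J w X (D.T ω)) (cb D J w i j r) + d

/-- **(NF)** The target is not full, given everything. -/
def NFStmt : Prop :=
  ∀ (n K K' c k B : ℕ) (C₁ C : ℝ), 1 ≤ B → ∃ A : ℝ, 0 ≤ A ∧
    ∀ (D : NDat2) (J a₀ w₀ z M w i j r r' r'' y U : ℕ) (lam gam : ℕ → ℝ) (κ h ϖ : ℝ)
      (q : D.Ω → ℝ) (E : D.Ω → Prop) (P : D.Γ × D.Γ → ℕ → PN) (S : D.Ω → ℕ → ℕ → ℝ)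
      (ys : Fin k → ℕ) (gs : Fin c → ℕ) (n₀ : Fin c),
      Hyp D n K K' J a₀ w₀ z M w i j r r' r'' y (B * U * z) lam gam κ C₁ C q E P S ys gs →
      D.NF n z M B gam h C₁ ϖ q → 0 < h → h ≤ 1 → ϖ ≤ 1 → gs n₀ = n → i + U ≤ M →
      (U : ℝ) ≤ gam n * (M - j) →
      CH q (fun ω => nuv D J w z i j r (B * U * z) C P gs ω n₀)
        (fun ω => ((fun u : {u : Fin c // u ≠ n₀} => nuv D J w z i j r (B * U * z) C P gs ω u),
          (vv D J w z i j r (B * U * z) C P ys gs ω,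
            (tv D J w z i j r (B * U * z) C S ys gs ω, cb D J w i j r ω)))) ≤
        (1 - h / B) * (B * U * z : ℕ) * Real.log 2 +
          err A κ z (B * U * z) (Pb q (fun ω => ¬ E ω))

/-- **(HS)** The group without the target is full below every depth, given everything. -/
def HsStmt : Prop := EntOf fun D n J _ _ z _ w i j r X _ q C P S c k ys gs d =>
  ∀ n₀ : Fin c, gs n₀ = n → ∀ x ≤ X,
    ((c : ℝ) - 1) * (((X : ℝ) - x) * Real.log 2) - d ≤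
      CH q (fun ω (u : {u : Fin c // u ≠ n₀}) => nuv D J w z i j r X C P gs ω u)
        (fun ω => ((fun u => nuv D J w z i j r X C P gs ω u / 2 ^ (X - x)),
          (vv D J w z i j r X C P ys gs ω, (tv D J w z i j r X C S ys gs ω, cb D J w i j r ω))))

/-- **(TM)** In one of the windows two times of a line are not near. -/
def TMStmt : Prop :=
  ∀ (η : ℝ), 0 < η → ∃ s : ℝ, 0 < s ∧ ∀ (n K K' M c k : ℕ) (C₁ C : ℝ),
    ∃ (κ₀ : ℝ) (z₀ : ℕ), 0 < κ₀ ∧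
    ∀ (D : NDat2) (J a₀ w₀ z i j r X : ℕ) (lam gam : ℕ → ℝ) (κ : ℝ) (q : D.Ω → ℝ)
      (P : D.Γ × D.Γ → ℕ → PN) (S : D.Ω → ℕ → ℕ → ℝ) (ys : Fin k → ℕ) (gs : Fin c → ℕ),
      κ ≤ κ₀ → z₀ ≤ z → z ≤ X → X ≤ M * z → i ≤ M → r ≤ j → j + 1 ≤ M →
      D.Ok2 n K J a₀ w₀ z M lam gam κ C₁ q → D.TmU J w₀ z κ q →
      ∃ w, w₀ + j * z ≤ w ∧ w ≤ w₀ + (j + 1) * z ∧
        (qh (c := c) (k := k) D J w z i j r X C P S ys gs q).TM X s η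

end Pool.P4
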