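import Pool.Agent.H41.GSD.Gev
import Pool.Agent.H7.MIC.LLd
import Pool.Agent.H64.QUAD.Top

/-!
# P4: the cell side, definitions

All base slopes `lam = 1`. Base place `(i, j)`, context `bb = (c i j, c (i - 1) (j - r))`. `P (bb)` is a
closed frame: a triangular system in the time and the coordinates, near to all the closed labels
of the radii `≤ i` and of the windows `j`, `j - r`. Natural units of `(i, j)`.

`sl`: slow coordinates. The places `L = (i + r', j - r)`, `L'' = (i + r'', j - r)` (line side),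
`R = (i - r', j + r)`, `R'' = (i - r'', j + r)` (visible side).
-/

set_option autoImplicit false

namespace Pool.P4

open Finset Real MvPolynomial
open Pool.Agent.H49.Ent Pool.Agent.H32.Dense Pool.STK Pool.STAT Pool.MIC.Frm Pool.MIC7 Pool.FRM
open Pool.GSD
open Pool.BFL (Pb)

/-! ### Times and paths -/

/-- The left end of the window of length `2 ^ (-w)`. -/
noncomputable def t0 (D : NDat2) (J w : ℕ) (ω : D.Ω) : ℝ :=
  ((D.T ω / 2 ^ (J - w) * 2 ^ (J - w) : ℕ) : ℝ) / 2 ^ J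

/-- The relative time in the window of length `2 ^ (-w)`, in `[0, 1)`. -/
noncomputable def rt (D : NDat2) (J w : ℕ) (ω : D.Ω) : ℝ := 2 ^ w * (D.X ω 0 - t0 D J w ω)

/-- The point of the line at the time `t`. -/
noncomputable def pp (D : NDat2) (x : D.Λ) (t : ℝ) (l : ℕ) : ℝ :=
  if l = 0 then t else (D.pa x l).eval t

/-- The path of the line is natural over the closed labels, on the whole window. -/
def PthC (D : NDat2) (n w₀ z M : ℕ) (C : ℝ) (ω : D.Ω) : Prop :=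
  ∀ i ≤ M, ∀ j ≤ M, ∀ l ≤ n, ∀ t : ℝ, |t - D.X ω 0| ≤ 1 / 2 ^ (w₀ + j * z) →
    |nat (D.g i j) (D.Φ i j ω) (pp D (D.ln ω) t) l| ≤ exp (C * z)

/-- The sample has a closed frame, with the time. -/
def FraC (D : NDat2) (n K' M z : ℕ) (C : ℝ) (ω : D.Ω) : Prop :=
  ∃ P : ℕ → PN, TriN P ∧ (∀ l, (P l).totalDegree ≤ K') ∧
    (∀ l ≤ n, eval (D.X ω) (P l) = D.X ω l) ∧ ∀ i < M, ∀ j < M, ∀ l ≤ n,
      nrm (D.g i j) (1 / 2) (chr P (D.Φ i j ω l - P l)) ≤ exp (C * z) / 2 ^ D.g i j l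

/-! ### Slow coordinates and steps -/

/-- The threshold. -/
noncomputable def thd (gam : ℕ → ℝ) (n : ℕ) : ℝ := min (gam n) 1

/-- Slow coordinates. The others, with the target, are the group. -/
def sl (gam : ℕ → ℝ) (n l : ℕ) : Prop := 1 ≤ l ∧ l < n ∧ gam l < thd gam n

/-- The group. -/
def gr (gam : ℕ → ℝ) (n l : ℕ) : Prop := 1 ≤ l ∧ l ≤ n ∧ thd gam n ≤ gam l

/-- The steps: `y` is the margin. -/
structure Stp (n : ℕ) (gam : ℕ → ℝ) (y r r' r'' a : ℕ) : Prop where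
  s1 : ∀ l, sl gam n l → gam l * r + y ≤ r'
  s2 : ∀ l, gr gam n l → r' + y ≤ gam l * r
  s2' : r' + y ≤ r
  s3 : ∀ l, gr gam n l → (gam l - 1) * r + y ≤ r'
  s4 : ∀ l, 1 ≤ l → l ≤ n → 2 * gam l * r + y ≤ r''
  s5 : r' ≤ r''
  s6 : y ≤ a

/-! ### The context and the closed frame -/

/-- The closed contexts. -/
def bb (D : NDat2) (i j r : ℕ) (ω : D.Ω) : D.Γ × D.Γ := (D.c i j ω, D.c (i - 1) (j - r) ω)

section

variable (D : NDat2) (J w i j r : ℕ) (P : D.Γ × D.Γ → ℕ → PN)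

/-- The coordinates of the exact point over the closed frame, in units of `(i, j)`. -/
noncomputable def ze (ω : D.Ω) (l : ℕ) : ℝ := nat (D.g i j) (P (bb D i j r ω)) (D.X ω) l

/-- The coordinates of the line at the time `t`. -/
noncomputable def zt (t : ℝ) (ω : D.Ω) (l : ℕ) : ℝ :=
  nat (D.g i j) (P (bb D i j r ω)) (pp D (D.ln ω) t) l

/-- The coordinates of the line at the left end of the window of length `2 ^ (-w)`. -/
noncomputable def z0 (ω : D.Ω) (l : ℕ) : ℝ := zt D i j r P (t0 D J w ω) ω l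

/-- The velocities, over the window of length `2 ^ (-w)`. -/
noncomputable def be (ω : D.Ω) (l : ℕ) : ℝ :=
  zt D i j r P (t0 D J w ω + 1 / 2 ^ w) ω l - z0 D J w i j r P ω l

end

open Classical in
/-- The height over the own sheet with the slopes `S` over the slow coordinates. -/
noncomputable def nn (D : NDat2) (n i j r : ℕ) (gam : ℕ → ℝ) (P : D.Γ × D.Γ → ℕ → PN)
    (S : D.Ω → ℕ → ℕ → ℝ) (ω : D.Ω) (u : ℕ) : ℝ :=
  ze D i j r P ω u - ∑ k ∈ (range n).filter (sl gam n), S ω u k * ze D i j r P ω k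

open Classical in
/-- **The geometry of a cell** in a context `bb`, on the event `E`. `S` are the own slopes. All
the windows of length `2 ^ (-w)`, `w₀ + j z ≤ w ≤ w₀ + (j + 1) z`. -/
structure Geo (D : NDat2) (n K' J w₀ z i j r r' r'' : ℕ) (gam : ℕ → ℝ) (C τ : ℝ) (q : D.Ω → ℝ)
    (E : D.Ω → Prop) (P : D.Γ × D.Γ → ℕ → PN) (S : D.Ω → ℕ → ℕ → ℝ) : Prop where
  -- the frame
  tri : ∀ v, TriN (P v)
  deg : ∀ v l, (P v l).totalDegree ≤ K'
  near : ∀ ω, 0 < q ω → E ω → ∀ i' ≤ i, ∀ l ≤ n,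
    nrm (D.g i' j) (1 / 2) (chr (P (bb D i j r ω)) (D.Φ i' j ω l - P (bb D i j r ω) l)) ≤
      exp (C * z) / 2 ^ D.g i' j l ∧
    nrm (D.g (i' - 1) (j - r)) (1 / 2)
      (chr (P (bb D i j r ω)) (D.Φ (i' - 1) (j - r) ω l - P (bb D i j r ω) l)) ≤
      exp (C * z) / 2 ^ D.g (i' - 1) (j - r) l
  -- bounds
  bz : ∀ ω, 0 < q ω → E ω → ∀ l, 1 ≤ l → l ≤ n → |ze D i j r P ω l| ≤ exp (C * z)
  bt : ∀ ω, 0 < q ω → E ω → ∀ l, 1 ≤ l → l ≤ n → ∀ w, w₀ + j * z ≤ w → w ≤ w₀ + (j + 1) * z →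
    |z0 D J w i j r P ω l| ≤ exp (C * z) ∧ |be D J w i j r P ω l| ≤ exp (C * z)
  bS : ∀ ω, 0 < q ω → E ω → ∀ u k, |S ω u k| ≤ exp (C * z)
  tS : ∀ ω, 0 < q ω → E ω → ∀ u k, u ≤ k → S ω u k = 0
  -- the line: slow coordinates are constant, the group is affine
  slow : ∀ ω, 0 < q ω → E ω → ∀ l, sl gam n l → ∀ w, w₀ + j * z ≤ w → w ≤ w₀ + (j + 1) * z →
    |ze D i j r P ω l - z0 D J w i j r P ω l| ≤ τ
  grp : ∀ ω, 0 < q ω → E ω → ∀ l, gr gam n l → ∀ w, w₀ + j * z ≤ w → w ≤ w₀ + (j + 1) * z →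
    |ze D i j r P ω l - (z0 D J w i j r P ω l + rt D J w ω * be D J w i j r P ω l)| ≤ τ
  -- the context at `L` knows the slow coordinates and the velocities
  left : ∀ ω ω', 0 < q ω → 0 < q ω' → E ω → E ω' → bb D i j r ω = bb D i j r ω' →
    D.c (i + r') (j - r) ω = D.c (i + r') (j - r) ω' → ∀ w, w₀ + j * z ≤ w →
    w ≤ w₀ + (j + 1) * z → D.T ω / 2 ^ (J - w) = D.T ω' / 2 ^ (J - w) →
    (∀ l, sl gam n l → |z0 D J w i j r P ω l - z0 D J w i j r P ω' l| ≤ τ) ∧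
    ∀ l, gr gam n l → |be D J w i j r P ω l - be D J w i j r P ω' l| ≤ τ
  -- the context at `L''` knows the line
  left2 : ∀ ω ω', 0 < q ω → 0 < q ω' → E ω → E ω' → bb D i j r ω = bb D i j r ω' →
    D.c (i + r'') (j - r) ω = D.c (i + r'') (j - r) ω' → ∀ w, w₀ + j * z ≤ w →
    w ≤ w₀ + (j + 1) * z → D.T ω / 2 ^ (J - w) = D.T ω' / 2 ^ (J - w) →
    ∀ l, 1 ≤ l → l ≤ n → |z0 D J w i j r P ω l - z0 D J w i j r P ω' l| ≤ τ ∧
      |be D J w i j r P ω l - be D J w i j r P ω' l| ≤ τ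
  -- the label at `R` knows the own sheet
  right : ∀ ω ω', 0 < q ω → 0 < q ω' → E ω → E ω' → bb D i j r ω = bb D i j r ω' →
    D.T ω = D.T ω' → D.s (i - r') (j + r) ω = D.s (i - r') (j + r) ω' →
    ∀ u, gr gam n u → |nn D n i j r gam P S ω u - nn D n i j r gam P S ω' u| ≤ τ ∧
      ∀ k, sl gam n k → |S ω u k - S ω' u k| ≤ τ
  -- the label at `R''` knows the own slopes
  right2 : ∀ ω ω', 0 < q ω → 0 < q ω' → E ω → E ω' → bb D i j r ω = bb D i j r ω' →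
    D.T ω = D.T ω' → D.s (i - r'') (j + r) ω = D.s (i - r'') (j + r) ω' →
    ∀ u, gr gam n u → ∀ k, sl gam n k → |S ω u k - S ω' u k| ≤ τ
  -- the own sheet at `R` is affine over the slow coordinates
  sheet : ∀ ω, 0 < q ω → E ω → ∀ Bx : ℝ, 1 ≤ Bx → ∀ b : ℕ → ℝ, b 0 = D.X ω 0 →
    (∀ k, sl gam n k → |nat (D.g i j) (P (bb D i j r ω)) b k| ≤ exp (Bx * z)) →
    (∀ u, gr gam n u → b u = eval b (D.Ψ (i - r') (j + r) ω u)) →
    ∀ u, gr gam n u → |nat (D.g i j) (P (bb D i j r ω)) b u - (nn D n i j r gam P S ω u +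
      ∑ k ∈ (range n).filter (sl gam n), S ω u k * nat (D.g i j) (P (bb D i j r ω)) b k)| ≤
      exp (C * Bx * z) * τ
  -- the coordinates over the frame and over the visible labels at `(i, j)`
  toV : ∀ ω ω', 0 < q ω → 0 < q ω' → E ω → E ω' → bb D i j r ω = bb D i j r ω' →
    D.T ω = D.T ω' → ∀ l, 1 ≤ l → l ≤ n → ∀ δ : ℝ, 0 ≤ δ →
    (∀ k, 1 ≤ k → k ≤ l → |ze D i j r P ω k - ze D i j r P ω' k| ≤ δ) →
    |2 ^ D.g i j l * D.sh i j ω l - 2 ^ D.g i j l * D.sh i j ω' l| ≤ exp (C * z) * δ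
  ofV : ∀ ω ω', 0 < q ω → 0 < q ω' → E ω → E ω' → bb D i j r ω = bb D i j r ω' →
    D.T ω = D.T ω' → ∀ l, 1 ≤ l → l ≤ n → ∀ δ : ℝ, 0 ≤ δ →
    (∀ k, 1 ≤ k → k ≤ l →
      |2 ^ D.g i j k * D.sh i j ω k - 2 ^ D.g i j k * D.sh i j ω' k| ≤ δ) →
    |ze D i j r P ω l - ze D i j r P ω' l| ≤ exp (C * z) * δ

/-- **Deeper contexts** `(i', j)`, `i ≤ i' < M`, in the units of `(i, j)`: they know the line to the
depth `i' - i`, and the coordinates over the frame and over their visible labels are equivalent. -/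
structure Dep (D : NDat2) (n J w₀ z M i j r : ℕ) (C : ℝ) (q : D.Ω → ℝ) (E : D.Ω → Prop)
    (P : D.Γ × D.Γ → ℕ → PN) : Prop where
  ctx : ∀ i', i ≤ i' → i' < M → ∀ ω ω', 0 < q ω → 0 < q ω' → E ω → E ω' →
    bb D i j r ω = bb D i j r ω' → D.c i' j ω = D.c i' j ω' → ∀ w, w₀ + j * z ≤ w →
    w ≤ w₀ + (j + 1) * z → D.T ω / 2 ^ (J - w) = D.T ω' / 2 ^ (J - w) → ∀ l, 1 ≤ l → l ≤ n →
    |z0 D J w i j r P ω l - z0 D J w i j r P ω' l| ≤ exp (C * z) / 2 ^ ((i' - i) * z) ∧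
    |be D J w i j r P ω l - be D J w i j r P ω' l| ≤ exp (C * z) / 2 ^ ((i' - i) * z)
  toV : ∀ i', i ≤ i' → i' < M → ∀ ω ω', 0 < q ω → 0 < q ω' → E ω → E ω' →
    bb D i j r ω = bb D i j r ω' → D.c i' j ω = D.c i' j ω' → D.T ω = D.T ω' → ∀ l, 1 ≤ l →
    l ≤ n → ∀ δ : ℝ, 0 ≤ δ →
    (∀ k, 1 ≤ k → k ≤ l → |ze D i j r P ω k - ze D i j r P ω' k| ≤ δ) →
    |2 ^ D.g i j l * D.sh i' j ω l - 2 ^ D.g i j l * D.sh i' j ω' l| ≤ exp (C * z) * δ
  ofV : ∀ i', i ≤ i' → i' < M → ∀ ω ω', 0 < q ω → 0 < q ω' → E ω → E ω' →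
    bb D i j r ω = bb D i j r ω' → D.c i' j ω = D.c i' j ω' → D.T ω = D.T ω' → ∀ l, 1 ≤ l →
    l ≤ n → ∀ δ : ℝ, 0 ≤ δ →
    (∀ k, 1 ≤ k → k ≤ l →
      |2 ^ D.g i j k * D.sh i' j ω k - 2 ^ D.g i j k * D.sh i' j ω' k| ≤ δ) →
    |ze D i j r P ω l - ze D i j r P ω' l| ≤ exp (C * z) * δ

/-- **The base is full given the two closed contexts** of `bb`. -/
def LLC (D : NDat2) (n z M : ℕ) (C : ℝ) (q : D.Ω → ℝ) : Prop :=
  ∀ i j r U : ℕ, 1 ≤ i → r ≤ j → i + U < M → j + U * r < M →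
    ((n - 1 : ℕ) : ℝ) * (U * z) * Real.log 2 - C * z ≤
      CH q (D.vd n i j (U * z)) (fun ω => (D.c (i - 1) (j - r) ω, (D.c i j ω, D.T ω)))

/-! ### The picture for QUAD -/

/-- Truncation to `[-1, 1]`. -/
noncomputable def cl1 (x : ℝ) : ℝ := max (-1) (min 1 x)

/-- `X` digits, truncated. -/
noncomputable def dg (X : ℕ) (x : ℝ) : ℤ := ⌊2 ^ X * cl1 x⌋

/-- `X` digits in `[0, 2 ^ X)`. -/
noncomputable def dgp (X : ℕ) (x : ℝ) : ℤ := max 0 (min (2 ^ X - 1) ⌊2 ^ X * x⌋)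

/-- The unit of the slow coordinates. -/
noncomputable def Ry (z : ℕ) (C : ℝ) : ℝ := exp (C * z)

/-- The unit of the group. -/
noncomputable def Rg (z : ℕ) (C : ℝ) : ℝ := 2 * exp (2 * C * z)

section

variable {c k : ℕ} (D : NDat2) (J w z i j r X : ℕ) (C : ℝ) (P : D.Γ × D.Γ → ℕ → PN)
  (S : D.Ω → ℕ → ℕ → ℝ) (ys : Fin k → ℕ) (gs : Fin c → ℕ)

/-- The context with the window. -/
def cb (ω : D.Ω) : (D.Γ × D.Γ) × ℕ := (bb D i j r ω, D.T ω / 2 ^ (J - w))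

/-- The heights of the group at the left end of the window. -/
noncomputable def nuv (ω : D.Ω) (u : Fin c) : ℤ := dg X (z0 D J w i j r P ω (gs u) / Rg z C)

/-- The slow coordinates. -/
noncomputable def yv (ω : D.Ω) (a : Fin k) : ℤ :=
  dgp X ((z0 D J w i j r P ω (ys a) + Ry z C) / (2 * Ry z C))

/-- The velocities. -/
noncomputable def bev (ω : D.Ω) (u : Fin c) : ℤ := dg X (be D J w i j r P ω (gs u) / Rg z C)

/-- The own slopes. -/
noncomputable def Sv (ω : D.Ω) (u : Fin c) (a : Fin k) : ℤ :=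
  dg X (S ω (gs u) (ys a) * (2 * Ry z C) / Rg z C)

/-- The data of the line. -/
noncomputable def vv (ω : D.Ω) : ((D.Γ × D.Γ) × ℕ) × ((Fin k → ℤ) × (Fin c → ℤ)) :=
  (cb D J w i j r ω, (yv D J w z i j r X C P ys ω, bev D J w z i j r X C P gs ω))

/-- The abstract time. -/
noncomputable def tv (ω : D.Ω) : ((D.Γ × D.Γ) × ℕ) × (ℕ × (Fin c → Fin k → ℤ)) :=
  (cb D J w i j r ω, (D.T ω, Sv D z X C S ys gs ω))

/-- The relative time, `X` digits. -/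
def tq (J w X : ℕ) (T : ℕ) : ℕ := T % 2 ^ (J - w) / 2 ^ (J - w - X)

/-- **The picture.** -/
noncomputable def qh (q : D.Ω → ℝ) : Pool.QT64.QH c k where
  Ω := D.Ω
  iΩ := D.fin
  B := (D.Γ × D.Γ) × ℕ
  Vt := ((D.Γ × D.Γ) × ℕ) × ((Fin k → ℤ) × (Fin c → ℤ))
  Tt := ((D.Γ × D.Γ) × ℕ) × (ℕ × (Fin c → Fin k → ℤ))
  p := q
  b := cb D J w i j r
  nu := nuv D J w z i j r X C P gs
  v := vv D J w z i j r X C P ys gs
  th := tv D J w z i j r X C S ys gs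
  tau := fun t => (tq J w X t.2.1 : ℤ)
  E := fun t a u => (t.2.2 u a : ℝ) / 2 ^ X
  y := fun v => v.2.1
  be := fun v u => (v.2.2 u : ℝ) / 2 ^ X
  g := fun t v u => ⌊(tq J w X t.2.1 : ℝ) * ((v.2.2 u : ℝ) / 2 ^ X) -
      ∑ a, (t.2.2 u a : ℝ) / 2 ^ X * v.2.1 a + ∑ a, (t.2.2 u a : ℝ) / 2⌋
  a0 := fun t u => ∑ a, (t.2.2 u a : ℝ) / 2
  b0 := fun _ _ => 0

end

end Pool.P4
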