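import Pool.Agent.H14.P4.Near
import Pool.Agent.H35.TMU.Tmu
import Pool.Agent.H20.MIC.Ctx
import Pool.Agent.H7.MIC.Blk

/-!
# Closed labels of neighbouring places, with the time

`full_cl`: the time and the position over the closed label are full in the natural box given the
context. `cadj_one`: two closed labels which are functions of one context agree on the whole
natural box, for all times of the window.
-/

set_option autoImplicit false

namespace Pool.P4

open Finset Real MvPolynomial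
open Pool.Agent.H49.Ent Pool.Agent.H32.Dense Pool.STK Pool.STAT Pool.MIC.Frm Pool.MIC7 Pool.FRM
open Pool.BFL (Pb)

/-! ### The shift of the coordinates -/

/-- The shifted system. -/
noncomputable def shP (Φ : ℕ → PN) : ℕ → PN
  | 0 => 0
  | k + 1 => rename Nat.succ (Φ k)

/-- The shifted point. -/
def shb (b : ℕ → ℝ) : ℕ → ℝ
  | 0 => 0
  | k + 1 => b k

/-- The shifted levels. -/
def shg (g : ℕ → ℕ) : ℕ → ℕ
  | 0 => 0
  | k + 1 => g k

theorem eval_sh (b : ℕ → ℝ) (F : PN) : eval (shb b) (rename Nat.succ F) = eval b F := by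
  rw [eval_rename]
  rfl

theorem vars_sh {F : PN} {m : ℕ} (hF : F.vars ⊆ range m) :
    (rename Nat.succ F).vars ⊆ range (m + 1) := by
  classical
  intro x hx
  obtain ⟨y, hy, rfl⟩ := Finset.mem_image.1 (vars_rename Nat.succ F hx)
  have := mem_range.1 (hF hy)
  rw [mem_range]
  omega

theorem tri_sh {Φ : ℕ → PN} (h : TriN Φ) : TriN (shP Φ) := by
  intro k
  cases k with
  | zero =>
    unfold shP
    rw [vars_0]
    exact Finset.empty_subset _
  | succ k => exact vars_sh (h k)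

theorem deg_sh {Φ : ℕ → PN} {K : ℕ} (h : ∀ k, (Φ k).totalDegree ≤ K) (k : ℕ) :
    (shP Φ k).totalDegree ≤ K := by
  cases k with
  | zero =>
    unfold shP
    rw [totalDegree_zero]
    exact Nat.zero_le _
  | succ k => exact (totalDegree_rename_le _ _).trans (h k)

theorem nat_sh (g : ℕ → ℕ) (Φ : ℕ → PN) (b : ℕ → ℝ) (k : ℕ) :
    nat (shg g) (shP Φ) (shb b) (k + 1) = nat g Φ b k := by
  unfold nat
  show 2 ^ g k * (b k - eval (shb b) (rename Nat.succ (Φ k))) = _
  rw [eval_sh]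

/-! ### Two near systems at one time -/

/-- Points whose coordinates over `B` are near have near coordinates over `A`, if the systems are
near on the natural box. -/
theorem lip_dig (n K : ℕ) : ∃ L : ℝ, 1 ≤ L ∧ ∀ (g : ℕ → ℕ) (A B : ℕ → PN) (x x' : ℕ → ℝ) (ε : ℝ),
    TriN A → TriN B → (∀ i ≤ n, (A i).totalDegree ≤ K) → (∀ i ≤ n, (B i).totalDegree ≤ K) →
    (∀ l ≤ n, ∀ b : ℕ → ℝ, (∀ k < n, |nat g A b k| ≤ 1) →
      |eval b (B l) - eval b (A l)| ≤ 1 / 2 ^ g l) → 0 ≤ ε →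
    (∀ k < n, |nat g A x k| ≤ 1) → (∀ k < n, |nat g A x' k| ≤ 1) →
    (∀ k < n, |nat g B x k - nat g B x' k| ≤ ε) →
    ∀ k < n, |nat g A x k - nat g A x' k| ≤ L * ε := by
  obtain ⟨C, hC, h1⟩ := near_of_ev n K
  obtain ⟨C', D', hC', h2⟩ := near_lip n K
  refine ⟨(1 + C' * C) ^ n, one_le_pow₀ (by nlinarith), ?_⟩
  intro g A B x x' ε hA hB dA dB hAB hε hx hx' hd
  have hN : NearP n g A B (C * 1) := h1 g A B 1 hA hB dA dB hAB
  rw [mul_one] at hN
  have key : ∀ m, ∀ k ≤ m, k < n → |nat g A x k - nat g A x' k| ≤ (1 + C' * C) ^ m * ε := by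
    intro m
    induction m with
    | zero =>
      intro k hk hkn
      obtain rfl : k = 0 := by omega
      have e0 : ∀ b b' : ℕ → ℝ, eval b (A 0) = eval b' (A 0) := fun b b' =>
        Pool.SYS35.eval_congr (hA 0) fun i hi => absurd hi (Nat.not_lt_zero _)
      have e0' : ∀ b b' : ℕ → ℝ, eval b (B 0) = eval b' (B 0) := fun b b' =>
        Pool.SYS35.eval_congr (hB 0) fun i hi => absurd hi (Nat.not_lt_zero _)
      have e1 : nat g A x 0 - nat g A x' 0 = nat g B x 0 - nat g B x' 0 := by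
        unfold nat
        rw [e0 x x', e0' x x']
        ring
      rw [e1, pow_zero, one_mul]
      exact hd 0 hkn
    | succ m ih =>
      intro k hk hkn
      have hp : (1 : ℝ) ≤ (1 + C' * C) ^ m := one_le_pow₀ (by nlinarith)
      have h3 := h2 g A B C 1 ((1 + C' * C) ^ m * ε) x x' k hA hB dA dB (by linarith) le_rfl
        (by positivity) hN hkn.le (fun i hi => hx i (by omega)) (fun i hi => hx' i (by omega))
        (fun i hi => ih i (by omega) (by omega))
      have e1 : nat g A x k - nat g A x' k = (nat g B x k - nat g B x' k) +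
          2 ^ g k * ((eval x (B k) - eval x (A k)) - (eval x' (B k) - eval x' (A k))) := by
        unfold nat
        ring
      have e2 : |2 ^ g k * ((eval x (B k) - eval x (A k)) - (eval x' (B k) - eval x' (A k)))| ≤
          C' * C * ((1 + C' * C) ^ m * ε) := by
        rw [abs_mul, abs_of_pos (by positivity)]
        calc 2 ^ g k * |(eval x (B k) - eval x (A k)) - (eval x' (B k) - eval x' (A k))|
            ≤ 2 ^ g k * (C' * 1 ^ D' * C * ((1 + C' * C) ^ m * ε) / 2 ^ g k) :=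
              mul_le_mul_of_nonneg_left h3 (by positivity)
          _ = C' * C * ((1 + C' * C) ^ m * ε) := by
              rw [one_pow]
              field_simp
      rw [e1]
      refine (abs_add_le _ _).trans ?_
      have h4 := hd k hkn
      have h5 : ε ≤ (1 + C' * C) ^ m * ε := by nlinarith
      rw [pow_succ]
      nlinarith
  intro k hk
  exact key n k hk.le hk

section

variable {D : NDat2} {n K J a₀ w₀ z M : ℕ} {lam gam : ℕ → ℝ} {κ C₁ : ℝ} {q : D.Ω → ℝ}

/-- The visible and the closed labels on the natural box, at the exact time. -/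
theorem agr_fz (hO : D.Ok2 n K J a₀ w₀ z M lam gam κ C₁ q) {i j : ℕ} (hi : i ≤ M) (hj : j ≤ M)
    {ω : D.Ω} (hω : 0 < q ω) {l : ℕ} (hl : l ≤ n) {b : ℕ → ℝ}
    (hb : ∀ k < l, |nat (D.g i j) (fr D (i, j) ω) b k| ≤ 1) :
    |eval b (fz (D.X ω 0) (D.Φ i j ω) l) - eval b (fr D (i, j) ω l)| ≤ 1 / 2 ^ D.g i j l := by
  unfold fr
  rcases Nat.eq_zero_or_pos l with h0 | h0
  · subst h0
    rw [fz_zero, fz_zero, sub_self, abs_zero]
    positivity
  rw [eval_fz _ _ _ h0, eval_fz _ _ _ h0, abs_sub_comm]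
  refine hO.agr i hi j hj ω hω l h0 hl _ ⟨?_, fun k hk hkl => ?_⟩
  · rw [Function.update_self, sub_self, abs_zero]
    positivity
  · have := hb k hkl
    unfold fr at this
    rw [nat_fz _ _ _ _ hk] at this
    unfold nat at this
    rw [abs_mul, abs_of_pos (by positivity)] at this
    rw [le_div_iff₀ (by positivity)]
    linarith

/-- The digits over the closed label and over the visible label. -/
theorem vd_few_cl (n K : ℕ) : ∃ A : ℝ, 0 ≤ A ∧ ∀ (D : NDat2) (J a₀ w₀ z M : ℕ)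
    (lam gam : ℕ → ℝ) (κ C₁ : ℝ) (q : D.Ω → ℝ), D.Ok2 n K J a₀ w₀ z M lam gam κ C₁ q →
    ∀ i ≤ M, ∀ j ≤ M, ∀ u : ℕ, CH q (D.vd n i j u) (fun ω =>
      ((fun l : Fin (n - 1) => ⌊(2 : ℝ) ^ u * nat (D.g i j) (D.Φ i j ω) (D.X ω) (l + 1)⌋),
        (D.c i j ω, D.T ω))) ≤ A := by
  obtain ⟨L, hL, h⟩ := lip_dig n K
  refine ⟨((n - 1 : ℕ) : ℝ) * Real.log (2 * (⌈L⌉₊ + 1 : ℕ) + 1), ?_, ?_⟩
  · refine mul_nonneg (Nat.cast_nonneg _) (Real.log_nonneg ?_)
    have : (0 : ℝ) ≤ ((⌈L⌉₊ + 1 : ℕ) : ℝ) := Nat.cast_nonneg _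
    linarith
  intro D J a₀ w₀ z M lam gam κ C₁ q hO i hi j hj u
  refine few_vec hO.isLaw _ _ (⌈L⌉₊ + 1) ?_
  intro ω ω' hω hω' e l
  simp only [Prod.mk.injEq] at e
  obtain ⟨e1, e2, e3⟩ := e
  have hn : (l : ℕ) < n - 1 := l.2
  have hX : D.X ω 0 = D.X ω' 0 := by rw [hO.X_zero, hO.X_zero, e3]
  have hΦ : D.Φ i j ω = D.Φ i j ω' := by
    unfold NDat2.Φ
    rw [e2]
  have hΨ : D.Ψ i j ω = D.Ψ i j ω' := by
    unfold NDat2.Ψ
    rw [hO.s_c i hi j hj ω ω' hω hω' (Prod.ext e2 e3)]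
  have hp1 := pos_fr hO (p := (i, j)) hi hj hω
  have hp2 := pos_fr hO (p := (i, j)) hi hj hω'
  have hfr : fr D (i, j) ω' = fr D (i, j) ω := by
    unfold fr
    rw [hX, hΨ]
  rw [hfr] at hp2
  have key := h (D.g i j) (fr D (i, j) ω) (fz (D.X ω 0) (D.Φ i j ω)) (D.X ω) (D.X ω')
    (1 / 2 ^ u) (tri_fz (hO.G_tri _ _ _) _) (tri_fz (hO.P_tri _ _ _) _)
    (fun k _ => deg_fz (hO.G_deg _ _ _ _) _) (fun k _ => deg_fz (hO.P_deg _ _ _ _) _)
    (fun l hl b hb => agr_fz hO hi hj hω hl fun k hk => hb k (by omega)) (by positivity)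
    (fun k hk => hp1 k hk.le) (fun k hk => hp2 k hk.le) ?_ (l + 1) (by omega)
  · have f1 : nat (D.g i j) (fr D (i, j) ω) (D.X ω) (l + 1) =
        2 ^ D.g i j (l + 1) * D.sh i j ω (l + 1) := by
      unfold fr
      rw [nat_fz' _ _ rfl (by omega)]
      rfl
    have f2 : nat (D.g i j) (fr D (i, j) ω) (D.X ω') (l + 1) =
        2 ^ D.g i j (l + 1) * D.sh i j ω' (l + 1) := by
      unfold fr
      rw [nat_fz' _ _ hX.symm (by omega), hΨ]
      rfl
    rw [f1, f2] at key
    unfold NDat2.vd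
    refine flr ?_
    rw [pow_add]
    have g1 : (2 : ℝ) ^ D.g i j (l + 1) * 2 ^ u * D.sh i j ω (l + 1) -
        2 ^ D.g i j (l + 1) * 2 ^ u * D.sh i j ω' (l + 1) =
        2 ^ u * (2 ^ D.g i j (l + 1) * D.sh i j ω (l + 1) -
          2 ^ D.g i j (l + 1) * D.sh i j ω' (l + 1)) := by ring
    rw [g1, abs_mul, abs_of_pos (by positivity)]
    calc 2 ^ u * |(2 : ℝ) ^ D.g i j (l + 1) * D.sh i j ω (l + 1) -
          2 ^ D.g i j (l + 1) * D.sh i j ω' (l + 1)|
        ≤ 2 ^ u * (L * (1 / 2 ^ u)) := mul_le_mul_of_nonneg_left key (by positivity)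
      _ = L := by field_simp
      _ ≤ ⌈L⌉₊ := Nat.le_ceil _
  · intro k hk
    rcases Nat.eq_zero_or_pos k with k0 | k0
    · subst k0
      rw [nat_fz_zero, nat_fz_zero, hX, sub_self, abs_zero]
      positivity
    · rw [nat_fz' _ _ rfl k0, nat_fz' _ _ hX.symm k0]
      have e4 := congrFun e1 ⟨k - 1, by omega⟩
      simp only at e4
      rw [show k - 1 + 1 = k by omega, ← hΦ] at e4
      have e5 := Int.abs_sub_lt_one_of_floor_eq_floor e4
      rw [← mul_sub, abs_mul, abs_of_pos (by positivity)] at e5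
      rw [le_div_iff₀ (by positivity)]
      linarith

end

end Pool.P4
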