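import Pool.Agent.H14.P4.Stm
import Pool.Agent.H64.QUAD.Res

/-!
# P4: the assembly, statement
-/

set_option autoImplicit false

namespace Pool.P4

open Finset Real MvPolynomial
open Pool.Agent.H49.Ent Pool.Agent.H32.Dense Pool.STK Pool.STAT Pool.MIC.Frm Pool.MIC7 Pool.FRM
open Pool.GSD
open Pool.BFL (Pb)

/-- **(CELL)** In every cell there is a place whose picture satisfies the hypotheses of QUAD, with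
`B'` blocks. -/
def CellStmt : Prop :=
  ∀ (n K B : ℕ) (lam gam : ℕ → ℝ) (C₁ h : ℝ) (c k : ℕ) (ys : Fin k → ℕ) (gs : Fin c → ℕ)
    (n₀ : Fin c), 1 ≤ n → 1 ≤ B → (∀ l, 1 ≤ l → l ≤ n → lam l = 1) → (∀ l, 0 ≤ gam l) →
    0 < gam n → (∀ l, gr gam n l → gam l < 1 + thd gam n) → 1 ≤ C₁ → 0 < h → h ≤ 1 →
    (∀ a, sl gam n (ys a)) → Function.Injective ys → (∀ l, sl gam n l → ∃ a, ys a = l) →
    (∀ u, gr gam n (gs u)) → StrictMono gs → (∀ l, gr gam n l → ∃ u, gs u = l) →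
    gs n₀ = n → ∀ CL : ℝ,
    ∃ (K' : ℕ) (C : ℝ), 1 ≤ C ∧ ∀ η : ℝ, 0 < η → ∃ s : ℝ, 0 < s ∧
    ∀ (B' U₀ y₀ : ℕ) (io : ℝ), 1 ≤ B' → 0 < io →
    ∃ U y r r' r'' a i j : ℕ, 1 ≤ U ∧ U₀ ≤ U ∧ y₀ ≤ y ∧ ∀ M₀ : ℕ, ∃ M : ℕ, M₀ ≤ M ∧
      Plc n gam y r r' r'' a M i j ∧
    ∀ e : ℝ, 0 < e → ∃ (κ : ℝ) (z₀ : ℕ), 0 < κ ∧
    ∀ (J a₀ w₀ z : ℕ) (D : NDat2) (q : D.Ω → ℝ) (ϖ : ℝ), z₀ ≤ z → ϖ ≤ 1 →
      D.Ok2 n K J a₀ w₀ z M lam gam κ C₁ q → D.DMA z M κ q → LLC D n z M CL q →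
      D.TmU J w₀ z κ q → D.NF n z M B gam h C₁ ϖ q →
      ∃ (w : ℕ) (E : D.Ω → Prop) (P : D.Γ × D.Γ → ℕ → PN) (S : D.Ω → ℕ → ℕ → ℝ),
        Pb q (fun ω => ¬ E ω) ≤ e ∧
        Hyp D n K K' J a₀ w₀ z M w i j r r' r'' y (B * U * z) lam gam κ C₁ C q E P S ys gs ∧
        (qh (c := c) (k := k) D J w z i j r (B * U * z) C P S ys gs q).Ok0S n₀ (B * U * z) B'
          (k + 4) (h / (2 * B)) (io * (B * U * z : ℕ)) ∧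
        (qh (c := c) (k := k) D J w z i j r (B * U * z) C P S ys gs q).TM (B * U * z) s η

end Pool.P4
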