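import Pool.Agent.H66.P4.CellF
import Pool.Agent.H69.P4.Geo
import Pool.Agent.H70.P4.Pth
import Pool.Agent.H70.P4.YF
import Pool.Agent.H14.P4.Cfr2
import Pool.Agent.H14.P4.Dep2
import Pool.Agent.H25.P4.Lin
import Pool.Agent.H38.P4.Own
import Pool.Agent.H16.P4.H0
import Pool.Agent.H89.P4.H2f
import Pool.Agent.H89.P4.Hs
import Pool.Agent.H35.P4.Tm
import Pool.Agent.H98.P4.NF

/-!
# P4: the cell side
-/

set_option autoImplicit false

namespace Pool.P4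

/-- **(GEO)** -/
theorem geo_thm : GeoStmt :=
  geo_of pth_stmt cfr_stmt Pool.P4L.lin_stmt Pool.P4O.own_stmt dep_stmt

/-- **(CELL)** -/
theorem cell_thm : CellStmt :=
  cell_of geo_thm Pool.P4E.h0_stmt h2 yf_stmt Pool.P4T.tf_stmt Pool.P4N.nf_stmt hs
    Pool.P4T.tm_stmt

/-- **(CELLF)** -/
theorem cellF_thm : CellFStmt :=
  cellF_of geo_thm Pool.P4E.h0_stmt h2 yf_stmt Pool.P4T.tf_stmt Pool.P4N.nf_stmt hs
    Pool.P4T.tm_stmt

end Pool.P4
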