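import Pool.Agent.H14.P4.Cadj
import Pool.Agent.H14.P4.Stm

/-!
# Closed frames

`full_cl`: the time and the position over the closed label are full in the natural box given the
context. `cadj_one`: two closed labels which are functions of one context agree on the whole
natural box, for all times of the window. `cfr_stmt`: closed frames.
-/

set_option autoImplicit false

namespace Pool.P4

open Finset Real MvPolynomial
open Pool.Agent.H49.Ent Pool.Agent.H32.Dense Pool.STK Pool.STAT Pool.MIC.Frm Pool.MIC7 Pool.FRM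
open Pool.GSD
open Pool.BFL (Pb)

/-- The relative time as digits. -/
theorem th_t0 {D : NDat2} {J w : ℕ} (hwJ : w ≤ J) {ω : D.Ω}
    (hX : D.X ω 0 = (D.T ω : ℝ) / 2 ^ J) :
    Pool.TMU.th D.T J w ω = 2 ^ w * (D.X ω 0 - t0 D J w ω) := by
  have h1 := Pool.TMU.th_eq D.T J w ω
  have h2 : (2 : ℝ) ^ J = 2 ^ (J - w) * 2 ^ w := by
    rw [← pow_add]
    congr 1
    omega
  have h3 : (0 : ℝ) < 2 ^ (J - w) := by positivity
  have h4 : (0 : ℝ) < 2 ^ w := by positivity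
  unfold t0
  rw [hX, h2]
  push_cast
  rw [← eq_div_iff h3.ne'] at h1
  rw [h1]
  field_simp

section

variable {D : NDat2} {n K J a₀ w₀ z M : ℕ} {lam gam : ℕ → ℝ} {κ C₁ : ℝ} {q : D.Ω → ℝ}

/-- The time over the label of the time has as many digits as the time in the window. -/
theorem time_cl (hO : D.Ok2 n K J a₀ w₀ z M lam gam κ C₁ q) (hT : D.TmU J w₀ z κ q) {i j : ℕ}
    (hi : i ≤ M) (hj : j ≤ M) : z * Real.log 2 - (κ * z + 3) ≤
      CH q (fun ω => ⌊(2 : ℝ) ^ z * nat (D.g i j) (D.Φ i j ω) (D.X ω) 0⌋) (D.c i j) := by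
  have hq := hO.isLaw
  have hjz : w₀ + j * z + z ≤ J := by
    have h1 := hO.thin
    have h2 := hO.top
    have h3 : j * z ≤ M * z := Nat.mul_le_mul_right _ hj
    have h4 : (M + 1) * z = M * z + z := by ring
    omega
  have h1 := Pool.TMU.full_tl (T := D.T) (L := D.ln) hq (w₀ := w₀) (w := w₀ + j * z) (x := z)
    (d := κ * z) (by omega) hjz hO.ln_w hT
  have h2 : CH q (Pool.OCG.tl (Pool.TMU.th D.T J (w₀ + j * z)) z)
      (fun ω => (D.ln ω, D.T ω / 2 ^ (J - (w₀ + j * z)))) ≤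
      CH q (Pool.OCG.tl (Pool.TMU.th D.T J (w₀ + j * z)) z) (D.c i j) :=
    CH_mono_cond hq.nonneg (hO.c_wn i hi j hj)
  have h3 := CH_le_add hq.nonneg (Pool.OCG.tl (Pool.TMU.th D.T J (w₀ + j * z)) z)
    (fun ω => ⌊(2 : ℝ) ^ z * nat (D.g i j) (D.Φ i j ω) (D.X ω) 0⌋) (D.c i j)
  have h4 : CH q (Pool.OCG.tl (Pool.TMU.th D.T J (w₀ + j * z)) z)
      (fun ω => (⌊(2 : ℝ) ^ z * nat (D.g i j) (D.Φ i j ω) (D.X ω) 0⌋, D.c i j ω)) ≤ 3 := by
    have e1 : CH q (Pool.OCG.tl (Pool.TMU.th D.T J (w₀ + j * z)) z)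
        (fun ω => (⌊(2 : ℝ) ^ z * nat (D.g i j) (D.Φ i j ω) (D.X ω) 0⌋, D.c i j ω)) ≤
        CH q (fun ω (_ : Fin 1) => Pool.OCG.tl (Pool.TMU.th D.T J (w₀ + j * z)) z ω)
        (fun ω => (⌊(2 : ℝ) ^ z * nat (D.g i j) (D.Φ i j ω) (D.X ω) 0⌋, D.c i j ω)) := by
      refine CH_mono_left hq.nonneg ?_
      intro ω ω' _ _ h
      simp only [Prod.mk.injEq] at h
      exact congrFun h.1 0
    refine e1.trans ?_
    refine (few_vec hq _ _ 2 ?_).trans ?_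
    · intro ω ω' hω hω' e _
      simp only [Prod.mk.injEq] at e
      obtain ⟨e1, e2⟩ := e
      have hT0 : D.T ω / 2 ^ (J - (w₀ + j * z)) = D.T ω' / 2 ^ (J - (w₀ + j * z)) :=
        hO.c_T i hi j hj ω ω' hω hω' e2
      have ht : t0 D J (w₀ + j * z) ω = t0 D J (w₀ + j * z) ω' := by
        unfold t0
        rw [hT0]
      have hΦ : D.Φ i j ω = D.Φ i j ω' := by
        unfold NDat2.Φ
        rw [e2]
      have hc : eval (D.X ω) (D.Φ i j ω 0) = eval (D.X ω') (D.Φ i j ω 0) :=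
        Pool.SYS35.eval_congr (hO.P_tri i j _ 0) fun i hi => absurd hi (Nat.not_lt_zero _)
      have e3 := Int.abs_sub_lt_one_of_floor_eq_floor e1
      have e4 : (2 : ℝ) ^ z * nat (D.g i j) (D.Φ i j ω) (D.X ω) 0 -
          2 ^ z * nat (D.g i j) (D.Φ i j ω') (D.X ω') 0 =
          2 ^ z * Pool.TMU.th D.T J (w₀ + j * z) ω -
            2 ^ z * Pool.TMU.th D.T J (w₀ + j * z) ω' := by
        rw [th_t0 (by omega) (hO.X_zero ω), th_t0 (by omega) (hO.X_zero ω'), ht, ← hΦ]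
        unfold nat
        rw [hc, hO.g_zero]
        ring
      rw [e4] at e3
      unfold Pool.OCG.tl
      have e5 : |⌊(2 : ℝ) ^ z * Pool.TMU.th D.T J (w₀ + j * z) ω⌋ -
          ⌊(2 : ℝ) ^ z * Pool.TMU.th D.T J (w₀ + j * z) ω'⌋| ≤ (2 : ℤ) := by
        have f1 := Int.floor_le ((2 : ℝ) ^ z * Pool.TMU.th D.T J (w₀ + j * z) ω)
        have f2 := Int.lt_floor_add_one ((2 : ℝ) ^ z * Pool.TMU.th D.T J (w₀ + j * z) ω)
        have f3 := Int.floor_le ((2 : ℝ) ^ z * Pool.TMU.th D.T J (w₀ + j * z) ω')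
        have f4 := Int.lt_floor_add_one ((2 : ℝ) ^ z * Pool.TMU.th D.T J (w₀ + j * z) ω')
        have e6 : |((⌊(2 : ℝ) ^ z * Pool.TMU.th D.T J (w₀ + j * z) ω⌋ -
          ⌊(2 : ℝ) ^ z * Pool.TMU.th D.T J (w₀ + j * z) ω'⌋ : ℤ) : ℝ)| ≤ ((2 : ℤ) : ℝ) := by
          push_cast
          rw [abs_lt] at e3
          rw [abs_le]
          constructor <;> linarith
        exact_mod_cast e6
      exact e5
    · have : Real.log (2 * ((2 : ℕ) : ℝ) + 1) ≤ 3 := by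
        push_cast
        have h5 : Real.log (2 * 2 + 1) ≤ Real.log (2 ^ 3) := Real.log_le_log (by norm_num)
          (by norm_num)
        rw [Real.log_pow] at h5
        have := Real.log_two_lt_d9
        push_cast at h5
        nlinarith
      rw [Nat.cast_one, one_mul]
      exact this
  linarith

/-- **The closed labels are full in the natural box**, with the time. -/
theorem full_cl (n K : ℕ) (hn : 1 ≤ n) : ∃ A : ℝ, 0 ≤ A ∧ ∀ (D : NDat2) (J a₀ w₀ z M : ℕ)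
    (lam gam : ℕ → ℝ) (κ C₁ : ℝ) (q : D.Ω → ℝ), D.Ok2 n K J a₀ w₀ z M lam gam κ C₁ q →
    D.TmU J w₀ z κ q → ∀ i < M, ∀ j ≤ M, n * (z * Real.log 2) - (2 * κ * z + A) ≤
      CH q (fun ω (l : Fin n) => ⌊(2 : ℝ) ^ z * nat (D.g i j) (D.Φ i j ω) (D.X ω) l⌋)
        (D.c i j) := by
  obtain ⟨A, hA, h⟩ := vd_few_cl n K
  refine ⟨A + 3, by linarith, ?_⟩
  intro D J a₀ w₀ z M lam gam κ C₁ q hO hT i hi j hj
  have hq := hO.isLaw
  have h1 := time_cl hO hT hi.le hj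
  have h2 := hO.full i hi.le j hj 1 hi
  have h3 := h D J a₀ w₀ z M lam gam κ C₁ q hO i hi.le j hj (1 * z)
  have h4 := CH_le_add hq.nonneg (D.vd n i j (1 * z))
    (fun ω (l : Fin (n - 1)) => ⌊(2 : ℝ) ^ (1 * z) * nat (D.g i j) (D.Φ i j ω) (D.X ω) (l + 1)⌋)
    (fun ω => (D.c i j ω, D.T ω))
  rw [one_mul] at h3 h4
  rw [show (1 : ℕ) * z = z by ring] at h2
  have h5 := CH_chain hq.nonneg
    (fun ω (l : Fin (n - 1)) => ⌊(2 : ℝ) ^ z * nat (D.g i j) (D.Φ i j ω) (D.X ω) (l + 1)⌋)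
    (fun ω => ⌊(2 : ℝ) ^ z * nat (D.g i j) (D.Φ i j ω) (D.X ω) 0⌋) (D.c i j)
  have h6 : CH q
      (fun ω (l : Fin (n - 1)) => ⌊(2 : ℝ) ^ z * nat (D.g i j) (D.Φ i j ω) (D.X ω) (l + 1)⌋)
      (fun ω => (D.c i j ω, D.T ω)) ≤ CH q
      (fun ω (l : Fin (n - 1)) => ⌊(2 : ℝ) ^ z * nat (D.g i j) (D.Φ i j ω) (D.X ω) (l + 1)⌋)
      (fun ω => (⌊(2 : ℝ) ^ z * nat (D.g i j) (D.Φ i j ω) (D.X ω) 0⌋, D.c i j ω)) := by
    refine CH_mono_cond hq.nonneg ?_
    intro ω ω' _ _ e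
    simp only [Prod.mk.injEq] at e ⊢
    obtain ⟨e1, e2⟩ := e
    refine ⟨?_, e1⟩
    have hΦ : D.Φ i j ω = D.Φ i j ω' := by
      unfold NDat2.Φ
      rw [e1]
    have hX : D.X ω 0 = D.X ω' 0 := by rw [hO.X_zero, hO.X_zero, e2]
    have hc : eval (D.X ω) (D.Φ i j ω 0) = eval (D.X ω') (D.Φ i j ω 0) :=
      Pool.SYS35.eval_congr (hO.P_tri i j _ 0) fun i hi => absurd hi (Nat.not_lt_zero _)
    unfold nat
    rw [hc, hΦ, hX]
  have h7 : CH q (fun ω => ((fun (l : Fin (n - 1)) =>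
        ⌊(2 : ℝ) ^ z * nat (D.g i j) (D.Φ i j ω) (D.X ω) (l + 1)⌋),
        ⌊(2 : ℝ) ^ z * nat (D.g i j) (D.Φ i j ω) (D.X ω) 0⌋)) (D.c i j) ≤
      CH q (fun ω (l : Fin n) => ⌊(2 : ℝ) ^ z * nat (D.g i j) (D.Φ i j ω) (D.X ω) l⌋)
        (D.c i j) := by
    refine CH_mono_left hq.nonneg ?_
    intro ω ω' _ _ e
    simp only [Prod.mk.injEq] at e ⊢
    refine ⟨?_, congrFun e.1 ⟨0, hn⟩⟩
    funext l
    exact congrFun e.1 ⟨l + 1, by omega⟩
  have h8 : ((n - 1 : ℕ) : ℝ) = n - 1 := by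
    rw [Nat.cast_sub hn, Nat.cast_one]
  rw [h8] at h2
  push_cast at h2
  have h9 : ((n : ℝ) - 1) * (1 * z) * Real.log 2 = n * (z * Real.log 2) - z * Real.log 2 := by
    ring
  linarith

end

/-- One closed label against the common refinement. -/
theorem cadj_one (n K S : ℕ) (hn : 1 ≤ n) (η : ℝ) (hη : 0 < η) (hη1 : η ≤ 1) :
    ∃ (κ₀ : ℝ) (z₀ : ℕ), 0 < κ₀ ∧
    ∀ (D : NDat2) (J a₀ w₀ z M : ℕ) (lam gam : ℕ → ℝ) (κ C₁ : ℝ) (q : D.Ω → ℝ),
      D.Ok2 n K J a₀ w₀ z M lam gam κ C₁ q → D.TmU J w₀ z κ q → κ ≤ κ₀ → z₀ ≤ z →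
      ∀ (p r : ℕ × ℕ),
      p.1 ≤ M → p.2 ≤ M → r.1 < M → r.2 ≤ M → Det q (D.c r.1 r.2) (D.c p.1 p.2) →
      (∀ l ≤ n, D.g p.1 p.2 l ≤ D.g r.1 r.2 l + S * z) → ∀ l ≤ n,
      Pb q (fun ω => ¬ ∀ b : ℕ → ℝ,
        (∀ k < l, |nat (D.g r.1 r.2) (D.Φ r.1 r.2 ω) b k| ≤ 1) →
        |eval b (D.Φ r.1 r.2 ω l) - eval b (D.Φ p.1 p.2 ω l)| ≤
          Real.exp ((S + 2 : ℕ) * z) / 2 ^ D.g p.1 p.2 l) ≤ η := by
  obtain ⟨C, hC, h⟩ := Pool.MIC.Frm.uni_ctx n K 1 zero_le_one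
  obtain ⟨A, hA, hfull⟩ := full_cl n K hn
  have hC0 : 0 < C := by linarith
  obtain ⟨z₁, hz₁⟩ := exists_nat_ge (4 * C * (A + 1) / η)
  refine ⟨η / (8 * C), max z₁ 1, by positivity, ?_⟩
  intro D J a₀ w₀ z M lam gam κ C₁ q hO hT hκ hz p r hp1 hp2 hr1 hr2 hdet hg l hln
  have hq := hO.isLaw
  have hz1 : (1 : ℝ) ≤ z := by exact_mod_cast (le_max_right _ _).trans hz
  have hzz : (z₁ : ℝ) ≤ z := by exact_mod_cast (le_max_left _ _).trans hz
  have hl2 : (1 : ℝ) / 2 ≤ Real.log 2 := by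
    have := Real.log_two_gt_d9
    linarith
  have hl21 : Real.log 2 ≤ 1 := by
    have := Real.log_two_lt_d9
    linarith
  -- the exponent
  have hkey : C * (η / (4 * C) * z + A + 1) / η ≤ z * Real.log 2 := by
    rw [div_le_iff₀ hη]
    have e1 : C * (η / (4 * C) * z + A + 1) = η * z / 4 + C * (A + 1) := by
      field_simp
      ring
    have e2 : 4 * C * (A + 1) ≤ z * η := by
      have := hz₁.trans hzz
      rwa [div_le_iff₀ hη] at this
    rw [e1]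
    have e3 : 0 ≤ z * η * (Real.log 2 - 1 / 2) :=
      mul_nonneg (mul_nonneg (by linarith) hη.le) (by linarith)
    nlinarith
  have hhgt : ∀ (p : ℕ × ℕ), p.1 ≤ M → p.2 ≤ M → ∀ ω, 0 < q ω → ∀ k ≤ n,
      |D.X ω k - eval (D.X ω) (D.Φ p.1 p.2 ω k)| ≤ 1 / 2 ^ D.g p.1 p.2 k := by
    intro p h1 h2 ω hω k hkn
    exact hO.hgt _ h1 _ h2 ω hω k hkn
  have τ0 : (0 : ℝ) < 1 / 2 ^ D.g r.1 r.2 l + 1 / 2 ^ D.g p.1 p.2 l := by positivity
  have main := h l hln D.Ω _ q z (D.c r.1 r.2) (shg (D.g r.1 r.2))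
    (fun ω => shP (D.Φ r.1 r.2 ω))
    (fun ω => rename Nat.succ (D.Φ r.1 r.2 ω l - D.Φ p.1 p.2 ω l)) (fun ω => shb (D.X ω))
    (1 / 2 ^ D.g r.1 r.2 l + 1 / 2 ^ D.g p.1 p.2 l) (η / (4 * C) * z + A) η hq
    (fun ω ω' a b e => rfl)
    (fun ω ω' a b e => by
      unfold NDat2.Φ
      simp only
      rw [e])
    (fun ω ω' a b e => by
      have e2 := hdet ω ω' a b e
      unfold NDat2.Φ
      simp only
      rw [e, e2])
    (fun ω _ => tri_sh (hO.P_tri _ _ _)) (fun ω _ k => deg_sh (fun k => hO.P_deg _ _ _ k) k)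
    (fun ω _ => vars_sh (AdxRow.vars_sub_le (hO.P_tri _ _ _ l) (hO.P_tri _ _ _ l)))
    (fun ω _ => (totalDegree_rename_le _ _).trans ((totalDegree_sub _ _).trans
      (max_le (hO.P_deg _ _ _ _) (hO.P_deg _ _ _ _))))
    τ0 (by positivity) hη hη1
    (fun ω hω k hk hkn => by
      obtain ⟨k', rfl⟩ : ∃ k', k = k' + 1 := ⟨k - 1, by omega⟩
      rw [nat_sh]
      have := hhgt r hr1.le hr2 ω hω k' (by omega)
      unfold nat
      rw [abs_mul, abs_of_pos (by positivity)]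
      rw [le_div_iff₀ (by positivity)] at this
      linarith)
    (by
      have e2 := hfull D J a₀ w₀ z M lam gam κ C₁ q hO hT r.1 hr1 r.2 hr2
      have e1 : (fun ω (i : Fin n) => ⌊(2 : ℝ) ^ z * nat (shg (D.g r.1 r.2))
          (shP (D.Φ r.1 r.2 ω)) (shb (D.X ω)) (i + 1)⌋) = fun ω (l : Fin n) =>
          ⌊(2 : ℝ) ^ z * nat (D.g r.1 r.2) (D.Φ r.1 r.2 ω) (D.X ω) l⌋ := by
        funext ω k
        rw [nat_sh]
      rw [e1]
      refine le_trans ?_ e2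
      have e3 : 2 * κ * z ≤ η / (4 * C) * z := by
        refine mul_le_mul_of_nonneg_right ?_ (by linarith)
        calc 2 * κ ≤ 2 * (η / (8 * C)) := by linarith
          _ = η / (4 * C) := by
              field_simp
              norm_num
      linarith)
    (by
      have : C * (η / (4 * C) * z + A + 1) / η ≤ z * Real.log 2 := hkey
      exact this)
    (fun ω hω => by
      rw [eval_sh, map_sub]
      have e1 := hhgt r hr1.le hr2 ω hω l hln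
      have e2 := hhgt p hp1 hp2 ω hω l hln
      have e3 : eval (D.X ω) (D.Φ r.1 r.2 ω l) - eval (D.X ω) (D.Φ p.1 p.2 ω l) =
          (D.X ω l - eval (D.X ω) (D.Φ p.1 p.2 ω l)) -
            (D.X ω l - eval (D.X ω) (D.Φ r.1 r.2 ω l)) := by ring
      rw [e3]
      refine (abs_sub _ _).trans ?_
      linarith)
  refine le_trans (Pool.MIC.Frm.Pb_supp hq.nonneg fun ω hω hb => ?_) main
  intro hc
  refine hb fun b hbb => ?_
  have c1 := hc (shb b) rfl (fun k hk hk' => by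
    obtain ⟨k', rfl⟩ : ∃ k', k = k' + 1 := ⟨k - 1, by omega⟩
    rw [nat_sh]
    exact hbb k' (by omega))
  rw [eval_sh, map_sub] at c1
  refine c1.trans ?_
  have hp2 : (0 : ℝ) < 2 ^ D.g p.1 p.2 l := by positivity
  rw [le_div_iff₀ hp2]
  have f1 : Real.exp (C * (η / (4 * C) * z + A + 1) / η) ≤ Real.exp z := by
    refine Real.exp_le_exp.2 (hkey.trans ?_)
    nlinarith
  have f2 : (1 / 2 ^ D.g r.1 r.2 l + 1 / 2 ^ D.g p.1 p.2 l) * (2 : ℝ) ^ D.g p.1 p.2 l ≤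
      2 * 2 ^ (S * z) := by
    have f3 : (2 : ℝ) ^ D.g p.1 p.2 l ≤ 2 ^ D.g r.1 r.2 l * 2 ^ (S * z) := by
      rw [← pow_add]
      exact pow_le_pow_right₀ one_le_two (hg l hln)
    have f4 : (1 : ℝ) ≤ 2 ^ (S * z) := one_le_pow₀ one_le_two
    have f5 : 1 / (2 : ℝ) ^ D.g r.1 r.2 l * 2 ^ D.g p.1 p.2 l ≤ 2 ^ (S * z) := by
      rw [one_div, inv_mul_le_iff₀ (by positivity)]
      exact f3
    have f6 : 1 / (2 : ℝ) ^ D.g p.1 p.2 l * 2 ^ D.g p.1 p.2 l = 1 := by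
      field_simp
    rw [add_mul, f6]
    linarith
  have f7 : (2 : ℝ) * 2 ^ (S * z) ≤ Real.exp ((S + 1 : ℕ) * z) := by
    have f8 : (2 : ℝ) ≤ Real.exp 1 := by
      have := Real.add_one_le_exp (1 : ℝ)
      linarith
    have f9 : (2 : ℝ) ^ (S * z) ≤ Real.exp (S * z) := by
      calc (2 : ℝ) ^ (S * z) ≤ Real.exp 1 ^ (S * z) := pow_le_pow_left₀ (by norm_num) f8 _
        _ = Real.exp (S * z) := by
            rw [← Real.exp_nat_mul, mul_one]
            push_cast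
            rfl
    have f10 : (2 : ℝ) ≤ Real.exp z := f8.trans (Real.exp_le_exp.2 hz1)
    calc (2 : ℝ) * 2 ^ (S * z) ≤ Real.exp z * Real.exp (S * z) :=
          mul_le_mul f10 f9 (by positivity) (Real.exp_pos _).le
      _ = Real.exp ((S + 1 : ℕ) * z) := by
          rw [← Real.exp_add]
          push_cast
          congr 1
          ring
  calc Real.exp (C * (η / (4 * C) * z + A + 1) / η) *
        (1 / 2 ^ D.g r.1 r.2 l + 1 / 2 ^ D.g p.1 p.2 l) * 2 ^ D.g p.1 p.2 l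
      = Real.exp (C * (η / (4 * C) * z + A + 1) / η) *
        ((1 / 2 ^ D.g r.1 r.2 l + 1 / 2 ^ D.g p.1 p.2 l) * 2 ^ D.g p.1 p.2 l) := by ring
    _ ≤ Real.exp z * Real.exp ((S + 1 : ℕ) * z) :=
        mul_le_mul f1 (f2.trans f7) (by positivity) (Real.exp_pos _).le
    _ = Real.exp ((S + 2 : ℕ) * z) := by
        rw [← Real.exp_add]
        push_cast
        congr 1
        ring

end Pool.P4
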