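import Pool.Agent.H14.P4.Near
import Pool.Agent.H14.P4.Stm
import Pool.Agent.H14.P4.Cadj

/-!
# Deeper contexts

`chg`: the change of a chart at two points. `dep_stmt : DepStmt`.
-/

set_option autoImplicit false

namespace Pool.P4

open Finset Real MvPolynomial
open Pool.Agent.H49.Ent Pool.Agent.H32.Dense Pool.STK Pool.STAT Pool.MIC.Frm Pool.MIC7 Pool.FRM
open Pool.GSD
open Pool.BFL (Pb)

/-- **The change of the chart at two points.** -/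
theorem chg (n K : ℕ) : ∃ (C : ℝ) (D : ℕ), 1 ≤ C ∧ ∀ (g : ℕ → ℕ) (A B Φ : ℕ → PN) (S R ε : ℝ)
    (x x' : ℕ → ℝ) (l : ℕ), TriN A → TriN B → TriN Φ → (∀ i ≤ n, (A i).totalDegree ≤ K) →
    (∀ i ≤ n, (B i).totalDegree ≤ K) → (∀ i ≤ n, (Φ i).totalDegree ≤ K) → 1 ≤ S → 1 ≤ R →
    0 ≤ ε → NearP n g A Φ S → NearP n g B Φ S → l ≤ n →
    (∀ k < l, |nat g A x k| ≤ R) → (∀ k < l, |nat g A x' k| ≤ R) →
    (∀ k ≤ l, |nat g A x k - nat g A x' k| ≤ ε) →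
    |nat g B x l - nat g B x' l| ≤ C * (R * S) ^ D * ε := by
  obtain ⟨C₁, D₁, h1, hn⟩ := near_near n K
  obtain ⟨C₂, D₂, h2, hl⟩ := near_lip n K
  refine ⟨1 + C₂ * C₁, D₁ + D₂, by nlinarith, ?_⟩
  intro g A B Φ S R ε x x' l hA hB hΦ dA dB dΦ hS hR hε nA nB hln hx hx' hd
  have hAB := hn g A B Φ S hA hB hΦ dA dB dΦ hS nA nB
  have key := hl g A B (C₁ * S ^ D₁) R ε x x' l hA hB dA dB (by positivity) hR hε hAB hln hx hx'
    (fun k hk => hd k hk.le)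
  have e1 : nat g B x l - nat g B x' l = (nat g A x l - nat g A x' l) -
      2 ^ g l * ((eval x (B l) - eval x (A l)) - (eval x' (B l) - eval x' (A l))) := by
    unfold nat
    ring
  have e2 : |2 ^ g l * ((eval x (B l) - eval x (A l)) - (eval x' (B l) - eval x' (A l)))| ≤
      C₂ * R ^ D₂ * (C₁ * S ^ D₁) * ε := by
    rw [abs_mul, abs_of_pos (by positivity)]
    calc 2 ^ g l * |(eval x (B l) - eval x (A l)) - (eval x' (B l) - eval x' (A l))|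
        ≤ 2 ^ g l * (C₂ * R ^ D₂ * (C₁ * S ^ D₁) * ε / 2 ^ g l) :=
          mul_le_mul_of_nonneg_left key (by positivity)
      _ = C₂ * R ^ D₂ * (C₁ * S ^ D₁) * ε := by field_simp
  have hRS : 1 ≤ R * S := by nlinarith
  have e3 : R ^ D₂ * S ^ D₁ ≤ (R * S) ^ (D₁ + D₂) := by
    rw [pow_add]
    calc R ^ D₂ * S ^ D₁ ≤ (R * S) ^ D₂ * (R * S) ^ D₁ :=
          mul_le_mul (pow_le_pow_left₀ (by linarith) (by nlinarith) _)
            (pow_le_pow_left₀ (by linarith) (by nlinarith) _) (by positivity) (by positivity)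
      _ = (R * S) ^ D₁ * (R * S) ^ D₂ := mul_comm _ _
  have e4 : 1 ≤ (R * S) ^ (D₁ + D₂) := one_le_pow₀ hRS
  have h5 := hd l le_rfl
  rw [e1]
  refine (abs_sub _ _).trans ?_
  have h6 : C₂ * R ^ D₂ * (C₁ * S ^ D₁) * ε ≤ C₂ * C₁ * (R * S) ^ (D₁ + D₂) * ε := by
    calc C₂ * R ^ D₂ * (C₁ * S ^ D₁) * ε = C₂ * C₁ * (R ^ D₂ * S ^ D₁) * ε := by ring
      _ ≤ C₂ * C₁ * (R * S) ^ (D₁ + D₂) * ε :=
          mul_le_mul_of_nonneg_right (mul_le_mul_of_nonneg_left e3 (by positivity)) hε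
  have h7 : ε ≤ (R * S) ^ (D₁ + D₂) * ε := by nlinarith
  calc |nat g A x l - nat g A x' l| +
        |2 ^ g l * ((eval x (B l) - eval x (A l)) - (eval x' (B l) - eval x' (A l)))|
      ≤ ε + C₂ * C₁ * (R * S) ^ (D₁ + D₂) * ε := by linarith
    _ ≤ (1 + C₂ * C₁) * (R * S) ^ (D₁ + D₂) * ε := by nlinarith

/-- Powers of two. -/
theorem two_le_exp {a b : ℕ} {x : ℝ} (hx : 0 ≤ x) (h : (a : ℝ) ≤ b + x) :
    (2 : ℝ) ^ a ≤ exp x * 2 ^ b := by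
  have hl : Real.log 2 ≤ 1 := by
    have := Real.log_two_lt_d9
    linarith
  have hl0 : 0 ≤ Real.log 2 := Real.log_nonneg (by norm_num)
  have e : ∀ c : ℕ, (2 : ℝ) ^ c = exp (c * Real.log 2) := fun c => by
    rw [mul_comm, Real.exp_mul, Real.exp_log (by norm_num), Real.rpow_natCast]
  rw [e, e, ← Real.exp_add]
  refine Real.exp_le_exp.2 ?_
  nlinarith

/-- The left end of the window. -/
theorem t0_near (D : NDat2) {J w : ℕ} (hw : w ≤ J) {ω : D.Ω} (hX : D.X ω 0 = (D.T ω : ℝ) / 2 ^ J) :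
    t0 D J w ω ≤ D.X ω 0 ∧ D.X ω 0 ≤ t0 D J w ω + 1 / 2 ^ w := by
  have h1 : D.T ω / 2 ^ (J - w) * 2 ^ (J - w) ≤ D.T ω := Nat.div_mul_le_self _ _
  have h2 : D.T ω < D.T ω / 2 ^ (J - w) * 2 ^ (J - w) + 2 ^ (J - w) := by
    have := Nat.lt_div_mul_add (a := D.T ω) (b := 2 ^ (J - w)) (by positivity)
    exact this
  have hJ : (0 : ℝ) < 2 ^ J := by positivity
  have h3 : (2 : ℝ) ^ J = 2 ^ (J - w) * 2 ^ w := by
    rw [← pow_add]
    congr 1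
    omega
  have h4 : (1 : ℝ) / 2 ^ w = 2 ^ (J - w) / 2 ^ J := by
    rw [h3]
    field_simp
  unfold t0
  rw [hX, h4]
  constructor
  · refine div_le_div_of_nonneg_right ?_ hJ.le
    exact_mod_cast h1
  · rw [← add_div]
    refine div_le_div_of_nonneg_right ?_ hJ.le
    exact_mod_cast h2.le

theorem t0_abs (D : NDat2) {J w v : ℕ} (hw : w ≤ J) (hv : v ≤ w) {ω : D.Ω}
    (hX : D.X ω 0 = (D.T ω : ℝ) / 2 ^ J) :
    |t0 D J w ω - D.X ω 0| ≤ 1 / 2 ^ v ∧ |t0 D J w ω + 1 / 2 ^ w - D.X ω 0| ≤ 1 / 2 ^ v := by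
  obtain ⟨h1, h2⟩ := t0_near D hw hX
  have h3 : (1 : ℝ) / 2 ^ w ≤ 1 / 2 ^ v :=
    one_div_le_one_div_of_le (by positivity) (pow_le_pow_right₀ one_le_two hv)
  constructor <;> rw [abs_le] <;> constructor <;> linarith

end Pool.P4
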