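import Pool.Agent.H41.GSD.Gev

/-!
# Near systems

`NearP n g P Φ S`: the labels `Φ l`, `l ≤ n`, are near to `P l` in natural units, in the chart of
`P`.
-/

set_option autoImplicit false

namespace Pool.P4

open Finset Real MvPolynomial
open Pool.STAT Pool.MIC.Frm Pool.MIC7 Pool.FRM

/-- `Φ` is near to `P`, in the chart of `P`, in natural units. -/
def NearP (n : ℕ) (g : ℕ → ℕ) (P Φ : ℕ → PN) (S : ℝ) : Prop :=
  ∀ l ≤ n, nrm g (1 / 2) (chr P (Φ l - P l)) ≤ S / 2 ^ g l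

variable {n K : ℕ} {g : ℕ → ℕ} {P Φ : ℕ → PN} {S : ℝ}

theorem NearP.mono {S' : ℝ} (h : NearP n g P Φ S) (hS : S ≤ S') : NearP n g P Φ S' :=
  fun l hl => (h l hl).trans (div_le_div_of_nonneg_right hS (by positivity))

theorem NearP.refl (n : ℕ) (g : ℕ → ℕ) (P : ℕ → PN) (hS : 0 ≤ S) : NearP n g P P S := by
  intro l _
  rw [sub_self]
  unfold chr
  rw [map_zero]
  have : nrm g (1 / 2) (0 : PN) = 0 := by
    unfold nrm
    rw [support_zero, Finset.sum_empty]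
  rw [this]
  positivity

/-- The values. -/
theorem near_ev (hP : TriN P) (hΦ : TriN Φ) (dP : ∀ i ≤ n, (P i).totalDegree ≤ K)
    (dΦ : ∀ i ≤ n, (Φ i).totalDegree ≤ K) (hN : NearP n g P Φ S) {B : ℝ} (hB : 1 ≤ B) {l : ℕ}
    (hl : l ≤ n) {b : ℕ → ℝ} (hb : ∀ k < l, |nat g P b k| ≤ B) :
    |eval b (Φ l) - eval b (P l)| ≤ B ^ (K * (K + 1) ^ n) * (S / 2 ^ g l) := by
  rw [← map_sub, ← chr_eval hP b]
  have h1 : (chr P (Φ l - P l)).totalDegree ≤ K * (K + 1) ^ n := by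
    refine (chr_deg (m := l) hP (fun i hi => dP i (by omega)) (AdxRow.vars_sub_le (hΦ l) (hP l))
      ((totalDegree_sub _ _).trans (max_le (dΦ l hl) (dP l hl)))).trans ?_
    exact Nat.mul_le_mul_left _ (Nat.pow_le_pow_right (by omega) hl)
  refine (eval_le_nrm (chr_vars hP (AdxRow.vars_sub_le (hΦ l) (hP l))) h1 g hB
    (fun i hi => ?_)).trans (mul_le_mul_of_nonneg_left (hN l hl) (by positivity))
  have := hb i hi
  rw [nat_eq, abs_mul, abs_of_pos (by positivity)] at this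
  rw [le_div_iff₀ (by positivity)]
  linarith

/-- The coefficients. -/
theorem near_coeff (hN : NearP n g P Φ S) {l : ℕ} (hl : l ≤ n) (α : ℕ →₀ ℕ) :
    |coeff α (chr P (Φ l - P l))| ≤ S * (2 ^ Finsupp.weight g α / 2 ^ g l) := by
  have h1 := (coeff_le_nrm g (ρ := 1 / 2) (by norm_num) (chr P (Φ l - P l)) α).trans (hN l hl)
  rw [half_pow, mul_one_div, div_le_iff₀ (by positivity)] at h1
  calc |coeff α (chr P (Φ l - P l))| ≤ S / 2 ^ g l * 2 ^ Finsupp.weight g α := h1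
    _ = S * (2 ^ Finsupp.weight g α / 2 ^ g l) := by ring

/-- From the box of `Φ` to the box of `P`. -/
theorem near_box (n K : ℕ) : ∀ m ≤ n + 1, ∃ (C : ℝ) (D : ℕ), 1 ≤ C ∧ ∀ (g : ℕ → ℕ)
    (P Φ : ℕ → PN) (S B : ℝ), TriN P → TriN Φ → (∀ i ≤ n, (P i).totalDegree ≤ K) →
    (∀ i ≤ n, (Φ i).totalDegree ≤ K) → NearP n g P Φ S → 1 ≤ S → 1 ≤ B → ∀ b : ℕ → ℝ,
    (∀ k < m, |nat g Φ b k| ≤ B) → ∀ k < m, |nat g P b k| ≤ C * (B * S) ^ D := by
  intro m
  induction m with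
  | zero => exact fun _ => ⟨1, 0, le_rfl, fun _ _ _ _ _ _ _ _ _ _ _ _ _ _ k hk =>
      absurd hk (Nat.not_lt_zero _)⟩
  | succ m ih =>
    intro hm
    obtain ⟨C, D, hC, h⟩ := ih (by omega)
    obtain ⟨K', hK'⟩ : ∃ K' : ℕ, K' = K * (K + 1) ^ n := ⟨_, rfl⟩
    refine ⟨C + (1 + C ^ K'), D + (D * K' + 1), ?_, ?_⟩
    · have : 0 ≤ C ^ K' := by positivity
      linarith
    intro g P Φ S B hP hΦ dP dΦ hN hS hB b hb k hk
    have hBS : 1 ≤ B * S := by nlinarith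
    have h1 := h g P Φ S B hP hΦ dP dΦ hN hS hB b (fun k hk => hb k (by omega))
    have hx : (B * S) ^ D ≤ (B * S) ^ (D + (D * K' + 1)) := pow_le_pow_right₀ hBS (by omega)
    have hy : (B * S) ^ (D * K' + 1) ≤ (B * S) ^ (D + (D * K' + 1)) :=
      pow_le_pow_right₀ hBS (by omega)
    have hCK : 0 ≤ C ^ K' := by positivity
    rcases Nat.lt_succ_iff_lt_or_eq.1 hk with h2 | h2
    · refine (h1 k h2).trans ?_
      have e1 : C * (B * S) ^ D ≤ C * (B * S) ^ (D + (D * K' + 1)) :=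
        mul_le_mul_of_nonneg_left hx (by linarith)
      have e2 : 0 ≤ (1 + C ^ K') * (B * S) ^ (D + (D * K' + 1)) := by positivity
      nlinarith
    · subst h2
      have hW : 1 ≤ C * (B * S) ^ D := by
        have : 1 ≤ (B * S) ^ D := one_le_pow₀ hBS
        nlinarith
      have h3 := near_ev hP hΦ dP dΦ hN hW (l := k) (by omega) h1
      have e1 : nat g P b k = nat g Φ b k + 2 ^ g k * (eval b (Φ k) - eval b (P k)) := by
        unfold nat
        ring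
      have e2 : |2 ^ g k * (eval b (Φ k) - eval b (P k))| ≤ (C * (B * S) ^ D) ^ K' * S := by
        rw [abs_mul, abs_of_pos (by positivity)]
        calc 2 ^ g k * |eval b (Φ k) - eval b (P k)|
            ≤ 2 ^ g k * ((C * (B * S) ^ D) ^ (K * (K + 1) ^ n) * (S / 2 ^ g k)) :=
              mul_le_mul_of_nonneg_left h3 (by positivity)
          _ = (C * (B * S) ^ D) ^ K' * S := by
              rw [← hK']
              field_simp
      have e3 : (C * (B * S) ^ D) ^ K' * S ≤ C ^ K' * (B * S) ^ (D * K' + 1) := by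
        rw [mul_pow, ← pow_mul, pow_succ]
        have : S ≤ B * S := by nlinarith
        calc C ^ K' * (B * S) ^ (D * K') * S ≤ C ^ K' * (B * S) ^ (D * K') * (B * S) :=
              mul_le_mul_of_nonneg_left this (by positivity)
          _ = C ^ K' * ((B * S) ^ (D * K') * (B * S)) := by ring
      have e4 : B ≤ (B * S) ^ (D * K' + 1) := by
        calc B ≤ B * S := by nlinarith
          _ = (B * S) ^ 1 := (pow_one _).symm
          _ ≤ (B * S) ^ (D * K' + 1) := pow_le_pow_right₀ hBS (by omega)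
      have e5 := hb k (by omega)
      rw [e1]
      refine (abs_add_le _ _).trans ?_
      have e6 : 0 ≤ C * (B * S) ^ (D + (D * K' + 1)) := by positivity
      calc |nat g Φ b k| + |2 ^ g k * (eval b (Φ k) - eval b (P k))|
          ≤ (B * S) ^ (D * K' + 1) + C ^ K' * (B * S) ^ (D * K' + 1) := by linarith
        _ = (1 + C ^ K') * (B * S) ^ (D * K' + 1) := by ring
        _ ≤ (1 + C ^ K') * (B * S) ^ (D + (D * K' + 1)) :=
            mul_le_mul_of_nonneg_left hy (by positivity)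
        _ ≤ (C + (1 + C ^ K')) * (B * S) ^ (D + (D * K' + 1)) := by nlinarith

/-- From the box of `P` to the box of `Φ`. -/
theorem near_box' (hP : TriN P) (hΦ : TriN Φ) (dP : ∀ i ≤ n, (P i).totalDegree ≤ K)
    (dΦ : ∀ i ≤ n, (Φ i).totalDegree ≤ K) (hN : NearP n g P Φ S) (hS : 1 ≤ S) {B : ℝ}
    (hB : 1 ≤ B) {l : ℕ} (hl : l ≤ n) {b : ℕ → ℝ} (hb : ∀ k ≤ l, |nat g P b k| ≤ B) :
    |nat g Φ b l| ≤ 2 * (B * S) ^ (K * (K + 1) ^ n + 1) := by
  have h1 := near_ev hP hΦ dP dΦ hN hB hl (b := b) fun k hk => hb k hk.le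
  have hBS : 1 ≤ B * S := by nlinarith
  have e1 : nat g Φ b l = nat g P b l - 2 ^ g l * (eval b (Φ l) - eval b (P l)) := by
    unfold nat
    ring
  have e2 : |2 ^ g l * (eval b (Φ l) - eval b (P l))| ≤ B ^ (K * (K + 1) ^ n) * S := by
    rw [abs_mul, abs_of_pos (by positivity)]
    calc 2 ^ g l * |eval b (Φ l) - eval b (P l)|
        ≤ 2 ^ g l * (B ^ (K * (K + 1) ^ n) * (S / 2 ^ g l)) :=
          mul_le_mul_of_nonneg_left h1 (by positivity)
      _ = B ^ (K * (K + 1) ^ n) * S := by field_simp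
  have e3 : B ^ (K * (K + 1) ^ n) * S ≤ (B * S) ^ (K * (K + 1) ^ n + 1) := by
    rw [pow_succ]
    refine mul_le_mul (pow_le_pow_left₀ (by linarith) (by nlinarith) _) (by nlinarith)
      (by linarith) (by positivity)
  have e4 : B ≤ (B * S) ^ (K * (K + 1) ^ n + 1) := by
    calc B ≤ B * S := by nlinarith
      _ = (B * S) ^ 1 := (pow_one _).symm
      _ ≤ (B * S) ^ (K * (K + 1) ^ n + 1) := pow_le_pow_right₀ hBS (by omega)
  rw [e1]
  have := hb l le_rfl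
  refine (abs_sub _ _).trans ?_
  linarith

/-- Nearness from the values on the natural box. -/
theorem near_of_ev (n K : ℕ) : ∃ C : ℝ, 1 ≤ C ∧ ∀ (g : ℕ → ℕ) (A B : ℕ → PN) (S : ℝ), TriN A →
    TriN B → (∀ i ≤ n, (A i).totalDegree ≤ K) → (∀ i ≤ n, (B i).totalDegree ≤ K) →
    (∀ l ≤ n, ∀ b : ℕ → ℝ, (∀ k < n, |nat g A b k| ≤ 1) →
      |eval b (B l) - eval b (A l)| ≤ S / 2 ^ g l) → NearP n g A B (C * S) := by
  obtain ⟨C, D, hC, h⟩ := step n K
  refine ⟨C, hC, ?_⟩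
  intro g A B S hA hB dA dB hS l hl
  have := h g A A (B l - A l) (S / 2 ^ g l) 1 hA hA (fun i hi => dA i hi.le)
    (fun i hi => dA i hi.le)
    ((AdxRow.vars_sub_le (hB l) (hA l)).trans fun x hx => by
      rw [mem_range] at hx ⊢
      omega)
    ((totalDegree_sub _ _).trans (max_le (dB l hl) (dA l hl))) le_rfl
    (fun k hk => NearP.refl n g A zero_le_one k hk.le)
    (fun b hb => by
      rw [map_sub]
      exact hS l hl b hb)
  rw [one_pow, mul_one] at this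
  rwa [mul_div_assoc]

/-- Two systems near to a third one. -/
theorem near_near (n K : ℕ) : ∃ (C : ℝ) (D : ℕ), 1 ≤ C ∧ ∀ (g : ℕ → ℕ) (P P' Φ : ℕ → PN) (S : ℝ),
    TriN P → TriN P' → TriN Φ → (∀ i ≤ n, (P i).totalDegree ≤ K) →
    (∀ i ≤ n, (P' i).totalDegree ≤ K) → (∀ i ≤ n, (Φ i).totalDegree ≤ K) → 1 ≤ S →
    NearP n g P Φ S → NearP n g P' Φ S → NearP n g P P' (C * S ^ D) := by
  obtain ⟨C₁, D₁, h1, hst⟩ := step n K
  obtain ⟨C₂, D₂, h2, hbx⟩ := near_box n K n (by omega)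
  obtain ⟨K', hK'⟩ : ∃ K' : ℕ, K' = K * (K + 1) ^ n := ⟨_, rfl⟩
  refine ⟨C₁ * (2 * C₂ ^ K'), D₁ + (D₂ * K' + 1), ?_, ?_⟩
  · have : 1 ≤ C₂ ^ K' := one_le_pow₀ h2
    nlinarith
  intro g P P' Φ S hP hP' hΦ dP dP' dΦ hS hN hN' l hl
  have key := hst g Φ P (P' l - P l) (2 * (C₂ ^ K' * S ^ (D₂ * K' + 1)) / 2 ^ g l) S hΦ hP
    (fun i hi => dΦ i hi.le) (fun i hi => dP i hi.le)
    ((AdxRow.vars_sub_le (hP' l) (hP l)).trans fun x hx => by
      rw [mem_range] at hx ⊢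
      omega)
    ((totalDegree_sub _ _).trans (max_le (dP' l hl) (dP l hl))) hS
    (fun k hk => hN k hk.le)
    (fun b hb => by
      have a1 := hbx g P Φ S 1 hP hΦ dP dΦ hN hS le_rfl b hb
      have a2 := hbx g P' Φ S 1 hP' hΦ dP' dΦ hN' hS le_rfl b hb
      rw [one_mul] at a1 a2
      have hW : 1 ≤ C₂ * S ^ D₂ := by
        have : 1 ≤ S ^ D₂ := one_le_pow₀ hS
        nlinarith
      have b1 := near_ev hP hΦ dP dΦ hN hW hl (b := b) fun k hk => a1 k (by omega)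
      have b2 := near_ev hP' hΦ dP' dΦ hN' hW hl (b := b) fun k hk => a2 k (by omega)
      have b3 : (C₂ * S ^ D₂) ^ (K * (K + 1) ^ n) * (S / 2 ^ g l) =
          C₂ ^ K' * S ^ (D₂ * K' + 1) / 2 ^ g l := by
        rw [← hK', mul_pow, ← pow_mul, pow_succ]
        ring
      rw [b3] at b1 b2
      rw [map_sub]
      have b4 : eval b (P' l) - eval b (P l) =
          (eval b (Φ l) - eval b (P l)) - (eval b (Φ l) - eval b (P' l)) := by ring
      rw [b4]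
      refine (abs_sub _ _).trans ?_
      have b5 : 2 * (C₂ ^ K' * S ^ (D₂ * K' + 1)) / 2 ^ g l =
          C₂ ^ K' * S ^ (D₂ * K' + 1) / 2 ^ g l + C₂ ^ K' * S ^ (D₂ * K' + 1) / 2 ^ g l := by
        ring
      rw [b5]
      exact add_le_add b1 b2)
  refine key.trans (le_of_eq ?_)
  rw [pow_add S D₁]
  ring

/-- Symmetry. -/
theorem near_symm (n K : ℕ) : ∃ (C : ℝ) (D : ℕ), 1 ≤ C ∧ ∀ (g : ℕ → ℕ) (P Φ : ℕ → PN) (S : ℝ),
    TriN P → TriN Φ → (∀ i ≤ n, (P i).totalDegree ≤ K) → (∀ i ≤ n, (Φ i).totalDegree ≤ K) →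
    1 ≤ S → NearP n g P Φ S → NearP n g Φ P (C * S ^ D) := by
  obtain ⟨C, D, hC, h⟩ := near_near n K
  exact ⟨C, D, hC, fun g P Φ S hP hΦ dP dΦ hS hN =>
    h g Φ P Φ S hΦ hP hΦ dΦ dP dΦ hS (NearP.refl n g Φ (by linarith)) hN⟩

/-- At one time. -/
theorem near_fz (n K : ℕ) : ∃ C : ℝ, 1 ≤ C ∧ ∀ (g : ℕ → ℕ) (P Φ : ℕ → PN) (S B T : ℝ),
    TriN P → TriN Φ → (∀ i ≤ n, (P i).totalDegree ≤ K) → (∀ i ≤ n, (Φ i).totalDegree ≤ K) →
    1 ≤ B → |T - eval (fun _ => 0) (P 0)| ≤ B / 2 ^ g 0 → NearP n g P Φ S → 0 ≤ S →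
    NearP n g (fz T P) (fz T Φ) (C * (B ^ (K * (K + 1) ^ n) * S)) := by
  obtain ⟨C, hC, h⟩ := near_of_ev n K
  refine ⟨C, hC, ?_⟩
  intro g P Φ S B T hP hΦ dP dΦ hB hT hN hS
  refine h g (fz T P) (fz T Φ) _ (tri_fz hP T) (tri_fz hΦ T) (fun i hi => deg_fz (dP i hi) T)
    (fun i hi => deg_fz (dΦ i hi) T) ?_
  intro l hl b hb
  rcases Nat.eq_zero_or_pos l with h0 | h0
  · subst h0
    rw [fz_zero, fz_zero, sub_self, abs_zero]
    positivity
  rw [eval_fz _ _ _ h0, eval_fz _ _ _ h0]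
  have key := near_ev hP hΦ dP dΦ hN hB hl (b := Function.update b 0 T) (fun k hk => by
    rcases Nat.eq_zero_or_pos k with k0 | k0
    · subst k0
      unfold nat
      rw [Function.update_self, Pool.SYS35.eval_congr (hP 0)
        (fun i hi => absurd hi (Nat.not_lt_zero _) : ∀ i < 0, Function.update b 0 T i =
          (fun _ => (0 : ℝ)) i), abs_mul, abs_of_pos (by positivity)]
      rw [le_div_iff₀ (by positivity)] at hT
      linarith
    · have := hb k (by omega)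
      rw [nat_fz _ _ _ _ k0] at this
      linarith)
  rwa [mul_div_assoc]

/-- Two points. -/
theorem near_lip (n K : ℕ) : ∃ (C : ℝ) (D : ℕ), 1 ≤ C ∧ ∀ (g : ℕ → ℕ) (P Φ : ℕ → PN)
    (S B ε : ℝ) (b b' : ℕ → ℝ) (l : ℕ), TriN P → TriN Φ → (∀ i ≤ n, (P i).totalDegree ≤ K) →
    (∀ i ≤ n, (Φ i).totalDegree ≤ K) → 0 ≤ S → 1 ≤ B → 0 ≤ ε → NearP n g P Φ S → l ≤ n →
    (∀ k < l, |nat g P b k| ≤ B) → (∀ k < l, |nat g P b' k| ≤ B) →
    (∀ k < l, |nat g P b k - nat g P b' k| ≤ ε) →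
    |(eval b (Φ l) - eval b (P l)) - (eval b' (Φ l) - eval b' (P l))| ≤
      C * B ^ D * S * ε / 2 ^ g l := by
  obtain ⟨C, D, hC, h⟩ := vr n K
  refine ⟨C, D, hC, ?_⟩
  intro g P Φ S B ε b b' l hP hΦ dP dΦ hS hB hε hN hl hb hb' hd
  have key := h l g P (Φ l - P l) (S / 2 ^ g l) B ε b b' hl hP (fun i hi => dP i (by omega)) hB
    (by positivity) hε (AdxRow.vars_sub_le (hΦ l) (hP l))
    ((totalDegree_sub _ _).trans (max_le (dΦ l hl) (dP l hl)))
    (fun b hb => by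
      have := near_ev hP hΦ dP dΦ hN le_rfl hl (b := b) hb
      rw [one_pow, one_mul] at this
      rwa [map_sub]) hb hb' hd
  rw [map_sub, map_sub] at key
  refine key.trans (le_of_eq ?_)
  ring

end Pool.P4
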