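import Pool.Agent.H14.P4.Stm

/-!
# P4: labels with gain and thin labels

`GnL`: for the coordinates `l < n` outside `R` (contact coordinates) one two-sided label for the
whole cell, of a precision which is deeper than the natural precisions of the cell by `Q z` digits.
`NewLabT`: a new label on the box which is thin in the directions outside `R`.
-/

set_option autoImplicit false

namespace Pool.P4

open Finset Real MvPolynomial
open Pool.Agent.H49.Ent Pool.Agent.H32.Dense Pool.STK Pool.STAT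
open Pool.BFL (Pb)

/-- Labels with gain: the visible side, the line side, the precision. -/
structure GnL (D : NDat2) : Type where
  UD : ℕ → D.Ξ → PN
  UL : ℕ → D.Λ × ℕ → PN
  pr : ℕ → ℕ

/-- **The labels with gain** of the coordinates outside `R`. -/
structure GnL.Ok {D : NDat2} (U : GnL D) (n K J a₀ w₀ z M Q : ℕ) (R : ℕ → Prop) (C₁ : ℝ)
    (q : D.Ω → ℝ) : Prop where
  degD : ∀ l x, (U.UD l x).totalDegree ≤ K
  degL : ∀ l x, (U.UL l x).totalDegree ≤ K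
  varD : ∀ l x, (U.UD l x).vars ⊆ range l
  varL : ∀ l x, (U.UL l x).vars ⊆ range l
  -- the precision
  deep : ∀ l, 1 ≤ l → l < n → ¬ R l → ∀ i ≤ M, ∀ j ≤ M, D.g i j l + Q * z ≤ U.pr l
  -- the own point
  own : ∀ l, 1 ≤ l → l < n → ¬ R l → ∀ ω, 0 < q ω →
    |D.X ω l - eval (D.X ω) (U.UD l (D.pt ω))| ≤ 1 / 2 ^ U.pr l
  -- two sides
  two : ∀ l, 1 ≤ l → l < n → ¬ R l → ∀ i ≤ M, ∀ j ≤ M, ∀ ω, 0 < q ω → ∀ b : ℕ → ℝ,
    D.NB i j (a₀ + i * z) l ω b →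
    |eval b (U.UD l (D.pt ω)) - eval b (U.UL l (D.wn J w₀ ω))| ≤ 1 / 2 ^ U.pr l
  -- near to the labels of the cell
  near : ∀ l, 1 ≤ l → l < n → ¬ R l → ∀ i ≤ M, ∀ j ≤ M, ∀ ω, 0 < q ω → ∀ b : ℕ → ℝ,
    D.NB i j (a₀ + i * z) l ω b →
    |eval b (U.UD l (D.pt ω)) - eval b (D.Ψ i j ω l)| ≤ exp (C₁ * z) / 2 ^ D.g i j l

/-- The thin box: the natural box over the visible labels in the directions in `R`, `Q z` digits
over the labels with gain in the directions outside `R`. -/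
def NBT (D : NDat2) (U : GnL D) (z Q : ℕ) (R : ℕ → Prop) (i j ρ m : ℕ) (ω : D.Ω)
    (b : ℕ → ℝ) : Prop :=
  |b 0 - D.X ω 0| ≤ 1 / 2 ^ ρ ∧ ∀ u, 1 ≤ u → u < m →
    (R u → |b u - eval b (D.Ψ i j ω u)| ≤ 1 / 2 ^ D.g i j u) ∧
    (¬ R u → |b u - eval b (U.UD u (D.pt ω))| ≤ 1 / 2 ^ (D.g i j u + Q * z))

/-- If there is no direction outside `R`, the thin box is the natural box. -/
theorem NBT.of_all {D : NDat2} {U : GnL D} {z Q : ℕ} {R : ℕ → Prop} {i j ρ m : ℕ} {ω : D.Ω}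
    {b : ℕ → ℝ} (hR : ∀ u, 1 ≤ u → u < m → R u) :
    NBT D U z Q R i j ρ m ω b ↔ D.NB i j ρ m ω b :=
  ⟨fun h => ⟨h.1, fun u h1 h2 => (h.2 u h1 h2).1 (hR u h1 h2)⟩,
    fun h => ⟨h.1, fun u h1 h2 => ⟨fun _ => h.2 u h1 h2, fun h3 => absurd (hR u h1 h2) h3⟩⟩⟩

/-- **A new thin label** of the coordinate `l` at `(i, j)`: `NewLab2` on the thin box. -/
def NewLabT (D : NDat2) (U : GnL D) (J a₀ w₀ z Q : ℕ) (R : ℕ → Prop) (i j l A K' : ℕ) (η' : ℝ)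
    (q : D.Ω → ℝ) : Prop :=
  ∃ (Gn : D.Ξ → PN) (Hn : D.Λ × ℕ → PN),
    (∀ x, (Gn x).totalDegree ≤ K' ∧ (Gn x).vars ⊆ range l) ∧
    (∀ x, (Hn x).totalDegree ≤ K' ∧ (Hn x).vars ⊆ range l) ∧
    η' ≤ Pb q (fun ω =>
      |D.X ω l - eval (D.X ω) (Gn (D.pt ω))| ≤ 1 / 2 ^ (D.g i j l + A * z) ∧
      ∀ b : ℕ → ℝ, NBT D U z Q R i j (a₀ + i * z) l ω b →
        |eval b (Gn (D.pt ω)) - eval b (Hn (D.wn J (w₀ + j * z) ω))| ≤
          1 / 2 ^ (D.g i j l + A * z))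

/-- A new label is a new thin label, if there is no direction outside `R`. -/
theorem NewLabT.of_new {D : NDat2} {U : GnL D} {J a₀ w₀ z Q : ℕ} {R : ℕ → Prop}
    {i j l A K' : ℕ} {η' : ℝ} {q : D.Ω → ℝ} (hR : ∀ u, 1 ≤ u → u < l → R u)
    (h : D.NewLab2 J a₀ w₀ z i j l A K' η' q) : NewLabT D U J a₀ w₀ z Q R i j l A K' η' q := by
  obtain ⟨Gn, Hn, h1, h2, h3⟩ := h
  refine ⟨Gn, Hn, h1, h2, ?_⟩
  simp only [NBT.of_all hR]
  exact h3

/-- **The target is almost as full given the closed contexts**, from below: the digits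
`0, …, U z` of the target, given the natural digits of the base up to `B U z`, the two closed
contexts `bb` and the exact time. -/
def NFc (D : NDat2) (n z M B : ℕ) (gam : ℕ → ℝ) (h C₁ : ℝ) (q : D.Ω → ℝ) : Prop :=
  ∀ i, 1 ≤ i → i ≤ M → ∀ j ≤ M, ∀ s ≤ j, ∀ U : ℕ, i + U ≤ M → (U : ℝ) ≤ gam n * (M - j) →
    (1 - h) * (U * z) * Real.log 2 - C₁ * z ≤
      CH q (D.nd n i j (U * z))
        (fun ω => (D.nd n i j 0 ω,
          (D.vd n i j (B * (U * z)) ω, (D.c (i - 1) (j - s) ω, (D.c i j ω, D.T ω)))))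

/-- **P4, the local theorem**: the base slopes are `1`, the coordinates before the target outside
`R` have labels with gain, the rows of the target have the rate `1 - h` given the visible labels
and at least `1 - (h + δ)` given the closed contexts: a new thin label of the target or of a
coordinate of the group in `R`. -/
def P4T (n K A B : ℕ) (gam : ℕ → ℝ) (R : ℕ → Prop) (C₁ h δ : ℝ) : Prop :=
  ∃ (M Q K' : ℕ) (η' κ ϖ : ℝ) (z₀ : ℕ), 0 < η' ∧ 0 < κ ∧ 0 < ϖ ∧ ϖ ≤ 1 ∧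
    ∀ (lam : ℕ → ℝ) (J a₀ w₀ z : ℕ) (D : NDat2) (q : D.Ω → ℝ) (U : GnL D),
      (∀ l, 1 ≤ l → l ≤ n → lam l = 1) → z₀ ≤ z →
      D.Ok2 n K J a₀ w₀ z M lam gam κ C₁ q → D.NF n z M B gam h C₁ ϖ q →
      NFc D n z M B gam (h + δ) C₁ q → D.TmU J w₀ z κ q → U.Ok n K J a₀ w₀ z M Q R C₁ q →
      ∃ l, 1 ≤ l ∧ l ≤ n ∧ (l = n ∨ (R l ∧ gr gam n l)) ∧ ∃ i ≤ M, ∃ j ≤ M,
        NewLabT D U J a₀ w₀ z Q R i j l A K' η' q

/-- **P4**, all cells. `δ` depends only on `n`, `B` and on a lower bound of `h`. -/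
def P4Stmt : Prop :=
  ∀ (n B : ℕ) (h₀ : ℝ), 1 ≤ n → 1 ≤ B → 0 < h₀ → ∃ δ : ℝ, 0 < δ ∧
    ∀ (K A : ℕ) (gam : ℕ → ℝ) (R : ℕ → Prop) (C₁ h : ℝ), h₀ ≤ h → h ≤ 1 → (∀ l, 0 ≤ gam l) →
    0 < gam n → (∀ l, gr gam n l → gam l < 1 + thd gam n) → (∀ l, sl gam n l → R l) → 1 ≤ C₁ →
    P4T n K A B gam R C₁ h δ

end Pool.P4
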