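import Pool.Agent.H14.P4.VCell
import Pool.Agent.H14.P4.CellT
import Pool.Agent.H21.P4.EndB
import Pool.Agent.H25.P4.GfJ
import Pool.Agent.H35.P4.Red2

/-!
# P4: the local theorem

`p4`: the local theorem in the cells with all slopes one, thin labels (`P4Stmt`).
-/

set_option autoImplicit false

namespace Pool.P4

/-- **P4**: the local theorem. -/
theorem p4 : P4Stmt := by
  intro n B h₀ hn hB hh₀
  obtain ⟨δ, hδ, H⟩ := p4x_of (vcellS_of cellF_thm) gfS n B h₀ hn hB hh₀
  refine ⟨δ, hδ, fun K A gam R C₁ h h1 h2 g0 gn gg gs hC => ?_⟩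
  exact red2 hn g0 hC fun CL => H K A gam R C₁ CL h h1 h2 g0 gn gg gs hC

end Pool.P4
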