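import Pool.Agent.H66.P4.CellF
import Pool.Agent.H21.P4.EndS
import Pool.Agent.H35.P4.Red

/-!
# P4: the cell with its visible chart

`vcellS_of`: in every cell there is a place with a visible chart (`VCellS`).
-/

set_option autoImplicit false

namespace Pool.P4

open Finset Real MvPolynomial
open Pool.Agent.H49.Ent Pool.Agent.H32.Dense Pool.STK Pool.STAT Pool.MIC.Frm Pool.MIC7 Pool.FRM
open Pool.GSD Pool.POT Pool.P4N
open Pool.BFL (Pb)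
open Pool.QC (nfb)

/-- Larger errors. -/
theorem vch_mono' {c k : ℕ} {σ υ : Type} {H : Pool.QT64.QH c k} {X B : ℕ} {n₀ : Fin c}
    {c0 d d' δ δ' Γ Γ' : ℝ} {s : H.Ω → σ} {y : H.Ω → υ} {n : H.Ω → Fin c → ℤ}
    {M : H.Ω → Matrix (Fin c) (Fin c) ℝ} (h : VCh H X B n₀ c0 d δ Γ s y n M) (hd : d ≤ d')
    (hδ : δ ≤ δ') (hΓ : Γ ≤ Γ') : VCh H X B n₀ c0 d' δ' Γ' s y n M :=
  { h with
    ent := fun ω i j => (h.ent ω i j).trans hΓ
    inv := fun ω i j => (h.inv ω i j).trans hΓ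
    e1 := h.e1.trans hd
    e2 := h.e2.trans hd
    hF := h.hF.trans (add_le_add le_rfl hδ)
    rel := fun ω ω' h1 h2 h3 h4 h5 i => (h.rel ω ω' h1 h2 h3 h4 h5 i).trans hΓ
    tr := fun ω ω' h1 h2 h3 h4 h5 i => (h.tr ω ω' h1 h2 h3 h4 h5 i).trans hΓ }

/-- The visible digits and the record. -/
theorem visD_hat {D : NDat2} {z X : ℕ} {C : ℝ} {q : D.Ω → ℝ} {E : D.Ω → Prop} {c k : ℕ}
    {ys : Fin k → ℕ} {gs : Fin c → ℕ} {Sg : Type} {s : D.Ω → Sg} {zd : D.Ω → ℕ → ℝ} :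
    VisD D z X C 1 q E ys gs s zd (nuD z X C zd gs) (yD z X C zd ys) s := by
  have h2 : (2 : ℝ) ^ X ≤ exp (1 * (z + X)) := by
    have e1 : (2 : ℝ) ^ X = exp (X * Real.log 2) := by
      rw [← Real.rpow_natCast, Real.rpow_def_of_pos (by norm_num)]
      ring_nf
    rw [e1]
    refine Real.exp_le_exp.2 ?_
    have h1 : Real.log 2 ≤ 1 := by
      have := Real.log_two_lt_d9
      linarith
    have hX : (0 : ℝ) ≤ X := Nat.cast_nonneg X
    have hz : (0 : ℝ) ≤ z := Nat.cast_nonneg z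
    nlinarith
  refine
    { nN := fun _ _ _ => rfl
      yY := fun _ _ _ => rfl
      nB := fun ω _ u => (dg_bd X _).trans h2
      yB := fun ω _ a => ?_
      dS := fun _ _ _ _ h => h
      Sd := fun _ _ _ _ h => (Prod.ext_iff.1 h).2 }
  have h3 := dgp_bd X ((zd ω (ys a) + Ry z C) / (2 * Ry z C))
  have h4 : (yD z X C zd ys ω a : ℝ) < 2 ^ X := by
    have := h3.2
    exact_mod_cast this
  have h5 : (0 : ℝ) ≤ (yD z X C zd ys ω a : ℝ) := by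
    have := h3.1
    exact_mod_cast this
  rw [abs_of_nonneg h5]
  exact h4.le.trans h2

/-! ### Numbers -/

theorem vc_exp {a b : ℝ} {z : ℕ} (h : a ≤ b) : exp (a * z) ≤ exp (b * z) :=
  Real.exp_le_exp.2 (mul_le_mul_of_nonneg_right h (Nat.cast_nonneg z))

theorem vc_n1 {X io δ₁ e : ℝ} (hX : 0 ≤ X) (hio : 0 ≤ io) (h : δ₁ ≤ io / 4) (he : e ≤ δ₁ * X) :
    e ≤ io * X := by
  have h1 := mul_le_mul_of_nonneg_right h hX
  have h2 := mul_nonneg hio hX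
  linarith

theorem vc_n2 {X io δ δ₁ h e e' l : ℝ} (hX : 0 ≤ X) (hio : 0 ≤ io) (h1 : δ₁ ≤ io / 4)
    (hδ0 : 0 ≤ δ) (hδ : 4 * δ ≤ io) (hl1 : l ≤ 1) (he : e ≤ δ₁ * X)
    (he' : e' ≤ δ₁ * X) : (h + δ - h) * X * l + e + e' ≤ io * X := by
  have k1 := mul_le_mul_of_nonneg_right h1 hX
  have k2 := mul_nonneg hio hX
  have k3 : δ * X * l ≤ δ * X * 1 := mul_le_mul_of_nonneg_left hl1 (mul_nonneg hδ0 hX)
  have k4 := mul_le_mul_of_nonneg_right hδ hX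
  have k5 : h + δ - h = δ := by ring
  rw [k5]
  linarith

theorem vc_n3 {A A3 io l U z X : ℝ} (hz : 0 ≤ z) (hl : 0 ≤ l) (hio : 0 ≤ io)
    (hA : A ≤ U * (io * l)) (hA3 : A3 ≤ A) (hX : U * z ≤ X) : A3 * z ≤ l * (io * X) := by
  have h1 := mul_le_mul_of_nonneg_right hA hz
  have h2 := mul_le_mul_of_nonneg_right hA3 hz
  have h3 := mul_le_mul_of_nonneg_left hX (mul_nonneg hio hl)
  calc A3 * z ≤ A * z := h2
    _ ≤ U * (io * l) * z := h1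
    _ = io * l * (U * z) := by ring
    _ ≤ io * l * X := h3
    _ = _ := by ring

theorem vc_n4 {h B B' X l δ₁ e2 e3 : ℝ} (hX : 0 ≤ X) (hB : 0 < B) (hB' : 0 ≤ B')
    (hh : 0 ≤ h) (hl : 0 ≤ l)
    (h1 : δ₁ ≤ h / (2 * B) * l / (1 + B')) (he2 : e2 ≤ δ₁ * X) (he3 : e3 ≤ δ₁ * X) :
    (1 - h / B) * X * l + e2 + B' * e3 ≤ (1 - h / (4 * B)) * X * l := by
  have k1 : (0 : ℝ) < 1 + B' := by linarith
  rw [le_div_iff₀ k1] at h1
  have k2 := mul_le_mul_of_nonneg_left he3 hB'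
  have k3 := mul_le_mul_of_nonneg_right h1 hX
  have k4 : h / B = h / (2 * B) + h / (2 * B) := by
    field_simp
    ring
  rw [k4]
  calc (1 - (h / (2 * B) + h / (2 * B))) * X * l + e2 + B' * e3 ≤
      (1 - (h / (2 * B) + h / (2 * B))) * X * l + δ₁ * X + B' * (δ₁ * X) := by linarith
    _ = (1 - (h / (2 * B) + h / (2 * B))) * X * l + δ₁ * (1 + B') * X := by ring
    _ ≤ (1 - (h / (2 * B) + h / (2 * B))) * X * l + h / (2 * B) * l * X := by linarith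
    _ = (1 - h / (4 * B)) * X * l - h / (4 * B) * X * l := by
      field_simp
      ring
    _ ≤ _ := by
      have k5 : 0 ≤ h / (4 * B) * X * l := by positivity
      linarith

theorem vc_n5 {n B U z : ℕ} {C CL l x : ℝ} (hC : CL ≤ C)
    (h : ((n - 1 : ℕ) : ℝ) * (((B * (B * U) : ℕ) : ℝ) * z) * l - CL * z ≤ x) :
    ((n - 1 : ℕ) : ℝ) * ((B * (B * U) * z : ℕ) : ℝ) * l - C * z ≤ x := by
  have e1 : ((B * (B * U) * z : ℕ) : ℝ) = ((B * (B * U) : ℕ) : ℝ) * z := by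
    push_cast
    ring
  have e2 := mul_le_mul_of_nonneg_right hC (Nat.cast_nonneg (α := ℝ) z)
  rw [e1]
  linarith

theorem vc_n6 {m1 j M : ℕ} {g x : ℝ} (hg : 0 < g) (hm : x / g ≤ m1) (h : m1 + j ≤ M) :
    x ≤ g * (M - j) := by
  have e1 : ((m1 + j : ℕ) : ℝ) ≤ M := by exact_mod_cast h
  push_cast at e1
  rw [div_le_iff₀ hg] at hm
  have e2 : (m1 : ℝ) ≤ M - j := by linarith
  have e3 := mul_le_mul_of_nonneg_left e2 hg.le
  linarith

/-- The axioms of a cell with all slopes one. -/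
theorem vc_ok2 {D : NDat2} {n K J a₀ w₀ z M : ℕ} {lam gam : ℕ → ℝ} {κ C₁ : ℝ} {q : D.Ω → ℝ}
    (h : D.Ok2 n K J a₀ w₀ z M lam gam κ C₁ q) (h1 : ∀ l, 1 ≤ l → l ≤ n → lam l = 1) :
    D.Ok2 n K J a₀ w₀ z M (fun _ => 1) gam κ C₁ q := by
  have h2 := h.one_lam fun l l1 l2 => (h1 l l1 l2).ge
  have e : (fun l => if 1 ≤ l ∧ l ≤ n then lam l else 1) = fun _ => (1 : ℝ) := by
    funext l
    split_ifs with hl
    · exact h1 l hl.1 hl.2
    · rfl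
  rwa [e] at h2

/-- **The cell with its visible chart.** -/
theorem vcellS_of (hF : CellFStmt) : VCellS := by
  intro n K B gam C₁ CL h c k ys gs n₀ n1 B1 gam0 gamn ggr C1 hh0 hh1 y1 y2 y3 g1 g2 g3 g4 F
  have hC₁0 : 0 ≤ C₁ := by linarith
  choose T1 hT1p hT1 using fun (K' : ℕ) (C₀ : ℝ) =>
    cht_hat n K K' c |C₀| C₁ (abs_nonneg C₀) hC₁0
  choose T2 hT2a hT2b hT2 using fun (K' : ℕ) (C₀ : ℝ) =>
    dch n (max K K') |C₀| (abs_nonneg C₀)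
  obtain ⟨K', C₀, C, hC₀, hCC, hCF, HF⟩ := hF n K B (fun _ => 1) gam C₁ h c k ys gs n₀ n1 B1
    (fun _ _ _ => rfl) gam0 gamn ggr C1 hh0 hh1 y1 y2 y3 g1 g2 g3 g4 CL
    (fun K' C₀ => max (max (F K' C₀) CL) (3 + 2 * (T1 K' C₀ + T2 K' C₀)))
  have hC0 : 0 ≤ C₀ := by linarith
  have hC1 : 1 ≤ C := hC₀.trans hCC
  have hCn : 0 ≤ C := by linarith
  have H1 := hT1 K' C₀
  have H2 := hT2 K' C₀
  have hT1' := hT1p K' C₀
  have hT2' := hT2a K' C₀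
  obtain ⟨t1, ht1⟩ : ∃ t, t = T1 K' C₀ := ⟨_, rfl⟩
  obtain ⟨t2, ht2⟩ : ∃ t, t = T2 K' C₀ := ⟨_, rfl⟩
  simp only [← ht1, ← ht2] at H1 H2 hT1' hT2' hCF
  rw [abs_of_nonneg hC0] at H1 H2
  have hFC : F K' C₀ ≤ C := (le_max_left _ _).trans ((le_max_left _ _).trans hCF)
  have hCL : CL ≤ C := (le_max_right _ _).trans ((le_max_left _ _).trans hCF)
  have hTC : 3 + 2 * (t1 + t2) ≤ C := (le_max_right _ _).trans hCF
  refine ⟨K', C₀, C, hC₀, hCC, hFC, fun η hη => ?_⟩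
  obtain ⟨s, hs, HF⟩ := HF η hη
  refine ⟨s, hs, fun B' U₀ y₀ io δ hB' hio hδ0 hδ => ?_⟩
  obtain ⟨A1, a1, HH⟩ := hf_vis n K K' c k B C₁ C C 1 B1 hCn zero_le_one
  obtain ⟨A2, a2, HN⟩ := nfv n K K' c k B B' C₁ C C 1 B1 (by omega) hCn zero_le_one
  obtain ⟨A3, a3, HV⟩ := vch n K K' c k C₁ C
  obtain ⟨A, hA⟩ : ∃ A : ℝ, A = A1 + A2 + A3 := ⟨_, rfl⟩
  have hA0 : 0 ≤ A := by rw [hA]; linarith
  have l1 : A1 ≤ A := by rw [hA]; linarith
  have l2 : A2 ≤ A := by rw [hA]; linarith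
  have l3 : A3 ≤ A := by rw [hA]; linarith
  have hBr : (1 : ℝ) ≤ B := by exact_mod_cast B1
  have hB0 : (0 : ℝ) < B := by linarith
  have hlog : 0 < Real.log 2 := Real.log_pos (by norm_num)
  have hlog1 : Real.log 2 ≤ 1 := by
    have := Real.log_two_lt_d9
    linarith
  obtain ⟨δ₁, hδ₁⟩ : ∃ δ₁ : ℝ, δ₁ = min (io / 4) (h / (2 * B) * Real.log 2 / (1 + B')) :=
    ⟨_, rfl⟩
  have hδ₁0 : 0 < δ₁ := by rw [hδ₁]; exact lt_min (by positivity) (by positivity)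
  have hδa : δ₁ ≤ io / 4 := by rw [hδ₁]; exact min_le_left _ _
  have hδb : δ₁ ≤ h / (2 * B) * Real.log 2 / (1 + B') := by rw [hδ₁]; exact min_le_right _ _
  obtain ⟨u1, hu1⟩ := exists_nat_ge (4 * A / δ₁)
  obtain ⟨u2, hu2⟩ := exists_nat_ge (A / (io * Real.log 2))
  obtain ⟨u3, hu3⟩ := exists_nat_ge (2 / io)
  obtain ⟨U, y, r, r', r'', a, i, j, hU1, hU0, hy0, HM⟩ := HF B' (U₀ + u1 + u2 + u3) y₀ (io / 2)
    hB' (by positivity)
  refine ⟨U, y, r, r', r'', a, i, j, hU1, by omega, hy0, fun M₀ => ?_⟩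
  obtain ⟨m1, hm1⟩ := exists_nat_ge (((B * U : ℕ) : ℝ) / gam n)
  obtain ⟨M, hM, hP, HE⟩ := HM (M₀ + i + j + B * (B * U) + B * (B * U) * r + B * U + U + m1 + 1)
  refine ⟨M, by omega, fun e he => ?_⟩
  obtain ⟨e₂, he₂⟩ : ∃ e₂ : ℝ, e₂ = min e (δ₁ / (2 * (A + 1))) := ⟨_, rfl⟩
  have he₂0 : 0 < e₂ := by
    rw [he₂]
    exact lt_min he (by positivity)
  obtain ⟨κ, z₁, c4, c3, HZ⟩ := HE e₂ he₂0
  refine ⟨κ, max z₁ 1, c4, ?_⟩
  intro lam J a₀ w₀ z D q ϖ lam1 hz hϖ hO hDM hLLC hTm hNF hNFc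
  have z1 : z₁ ≤ z := (le_max_left _ _).trans hz
  have z3 : 1 ≤ z := (le_max_right _ _).trans hz
  obtain ⟨w, E, P, S, hE, hHyp₁, hGeo, hgd, hdep, hOk, hTM⟩ := HZ J a₀ w₀ z D q ϖ z1 hϖ
    (vc_ok2 hO lam1) hDM hLLC hTm hNF
  have hHyp : Hyp D n K K' J a₀ w₀ z M w i j r r' r'' y (B * U * z) lam gam κ C₁ C q E P S ys
      gs := { hHyp₁ with
    ok := hO
    lam1 := lam1 }
  have hFx := hHyp.fx hP hGeo hgd
  have hzr : (1 : ℝ) ≤ z := by exact_mod_cast z3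
  have hi : i ≤ M := by
    have := hHyp.i2
    omega
  have hj : j ≤ M := by
    have := hHyp.j2
    omega
  have hi1 : 1 ≤ i := hP.y1.trans (hP.stp.s6.trans hP.a1)
  have hq := hO.isLaw
  -- the chart
  obtain ⟨hnear, hcht⟩ := H1 D J a₀ w₀ z M w i j r r' r'' y (B * U * z) a k lam gam κ C q E P S
    ys gs hHyp hFx (by linarith)
  have hDch := H2 D K K' J a₀ w₀ z M i j r a (B * U * z) lam gam κ C₁ q E P hO (le_max_left _ _)
    (le_max_right _ _) z3 hi hj (fun ω hω => ⟨(hgd ω hω).1, (hgd ω hω).2.2⟩)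
  have hX1 := dch_mono (dch_x hDch) (show t2 ≤ t1 + t2 by linarith)
  have hX2 := dch_near (zh := zh D i j r a E P) hX1 (by linarith) z3
    (fun ω _ hω l l1 l2 => (hnear ω hω l l1 l2).trans
      (mul_le_mul_of_nonneg_right (vc_exp (by linarith)) (by positivity)))
  have hX3 := dch_mono hX2 hTC
  -- numbers
  have hBU1 : 1 ≤ B * U := Nat.one_le_iff_ne_zero.2 (by positivity)
  have hXU : U * z ≤ B * U * z := Nat.mul_le_mul_right z (Nat.le_mul_of_pos_left U B1)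
  have hXr : (U : ℝ) * z ≤ ((B * U * z : ℕ) : ℝ) := by exact_mod_cast hXU
  have hX0 : (0 : ℝ) ≤ ((B * U * z : ℕ) : ℝ) := Nat.cast_nonneg _
  have hUr : (U₀ : ℝ) + u1 + u2 + u3 ≤ U := by exact_mod_cast hU0
  have hu0 : (0 : ℝ) ≤ U₀ := Nat.cast_nonneg _
  have hu1' : (0 : ℝ) ≤ u1 := Nat.cast_nonneg _
  have hu2' : (0 : ℝ) ≤ u2 := Nat.cast_nonneg _
  have hu3' : (0 : ℝ) ≤ u3 := Nat.cast_nonneg _
  have hb0 : 0 ≤ Pb q (fun ω => ¬ E ω) := Pool.MIC.Pb_nonneg hq.nonneg _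
  have hb1 : Pb q (fun ω => ¬ E ω) ≤ δ₁ / (2 * (A + 1)) :=
    hE.trans (by rw [he₂]; exact min_le_right _ _)
  have herr : ∀ A' : ℝ, A' ≤ A →
      err A' κ z (B * U * z) (Pb q (fun ω => ¬ E ω)) ≤ δ₁ * (B * U * z : ℕ) := fun A' hA' =>
    (err_mono hA' c4.le hb0).trans (err_le hA0 hδ₁0 c3 (by linarith) hXU hb1)
  have hM1 : ((B * U : ℕ) : ℝ) ≤ gam n * (M - j) := vc_n6 gamn hm1 (by omega)
  have hM2 : (U : ℝ) ≤ gam n * (M - j) := by
    refine le_trans ?_ hM1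
    exact_mod_cast Nat.le_mul_of_pos_left U B1
  -- the fields of the visible chart
  have lo1 := hLLC i j r (B * (B * U)) hi1 hHyp.j1 (by omega) (by omega)
  have lo2 := hNFc i hi1 hi j hj r hHyp.j1 (B * U) (by omega) hM1
  have hf := HH D J a₀ w₀ z M w i j r r' r'' y (B * U) lam gam κ h (h + δ) ϖ q E P S ys gs
    (rcd D i j r a) (zh D i j r a E P) _ _ (rcd D i j r a)
    (fun ω => (D.c (i - 1) (j - r) ω, (D.c i j ω, D.T ω))) hHyp hX3 visD_hat hNF hϖ (by omega) hM1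
    (by
      intro ω ω' _ _ h1
      simp only [bb, Prod.mk.injEq] at h1 ⊢
      exact ⟨⟨h1.2.1, h1.1⟩, h1.2.2⟩)
    (by
      have e1 : B * (B * U * z) = B * (B * U) * z := by ring
      rw [e1]
      exact vc_n5 hCL lo1)
    lo2
  have hn := HN D J a₀ w₀ z M w i j r r' r'' y U lam gam κ h ϖ q E P S ys gs n₀ (rcd D i j r a)
    (zh D i j r a E P) _ _ (rcd D i j r a) hHyp hX3 visD_hat hNF hϖ g4 (by omega) hM2
  have hRcv : Rcv D n z i j r C q E (rcd D i j r a) (zh D i j r a E P) :=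
    ⟨hX3.bs, fun ω ω' h1 h2 h3 => (hX3.sT ω ω' h1 h2 h3).1, hX3.bd⟩
  have hv := HV D J a₀ w₀ z M w i j r r' r'' y (B * U * z) lam gam κ q E P S ys gs hHyp
    (rcd D i j r a) (zh D i j r a E P) (cMx D J a₀ z i j r a E P gs) hRcv hcht n₀ B' _ _
    (h / (4 * B)) hf hn (vc_n4 hX0 hB0 (Nat.cast_nonneg B') hh0.le hlog.le hδb (herr _ l2)
      (herr _ l3))
  -- sizes
  have hUX : (U : ℝ) ≤ ((B * U * z : ℕ) : ℝ) := by
    refine le_trans ?_ hXr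
    have := mul_le_mul_of_nonneg_left hzr (Nat.cast_nonneg (α := ℝ) U)
    linarith
  have s1 : Real.log 2 ≤ io / 2 * ((B * U * z : ℕ) : ℝ) := by
    have e1 : 2 / io ≤ ((B * U * z : ℕ) : ℝ) := by linarith
    rw [div_le_iff₀ hio] at e1
    linarith
  have s2 : exp (A3 * z) ≤ (2 : ℝ) ^ (io * ((B * U * z : ℕ) : ℝ)) := by
    rw [Real.rpow_def_of_pos (by norm_num)]
    refine Real.exp_le_exp.2 ?_
    have e1 : A / (io * Real.log 2) ≤ U := by linarith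
    rw [div_le_iff₀ (by positivity)] at e1
    exact vc_n3 (Nat.cast_nonneg z) hlog.le hio.le e1 l3 hXr
  have s3 : err A3 κ z (B * U * z) (Pb q (fun ω => ¬ E ω)) ≤ io * ((B * U * z : ℕ) : ℝ) :=
    vc_n1 hX0 hio.le hδa (herr _ l3)
  have s4 : (h + δ - h) * ((B * U * z : ℕ) : ℝ) * Real.log 2 +
      err A1 κ z (B * U * z) (Pb q (fun ω => ¬ E ω)) +
      err A3 κ z (B * U * z) (Pb q (fun ω => ¬ E ω)) ≤ io * ((B * U * z : ℕ) : ℝ) :=
    vc_n2 hX0 hio.le hδa hδ0.le hδ hlog1 (herr _ l1) (herr _ l3)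
  refine ⟨w, E, P, S, hE.trans (by rw [he₂]; exact min_le_left _ _), ?_⟩
  exact
    { hyp := hHyp
      plc := hP
      geo := hGeo
      gd := hgd
      okn := (hOk.toOkNS.flag E).mono le_rfl (by linarith)
      tm := hTM
      vch := vch_mono' hv s3 (by linarith [s4]) s2 }

end Pool.P4
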